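import Mathlib

/-!
Auxiliary lemmas for first-case theorems in the style of Sophie Germain.
-/

namespace Pool.Agent.H326R2

open Finset

/-- The cofactor of `X - Y` in `X ^ n - Y ^ n`. -/
def cof (n : ℕ) (X Y : ℤ) : ℤ := ∑ i ∈ range n, X ^ i * Y ^ (n - 1 - i)

lemma sub_mul_cof (n : ℕ) (X Y : ℤ) : (X - Y) * cof n X Y = X ^ n - Y ^ n := by
  rw [mul_comm]; exact (Commute.all X Y).geom_sum₂_mul n

lemma coprime_sub_cof (n : ℕ) (X Y : ℤ) (hXY : IsCoprime X Y) (hc : IsCoprime (X - Y) (n : ℤ))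
    (hne : X ^ n - Y ^ n ≠ 0) : IsCoprime (X - Y) (cof n X Y) := by
  apply isCoprime_of_prime_dvd
  · rintro ⟨h1, _⟩
    apply hne
    rw [← sub_mul_cof, h1, zero_mul]
  · intro l hl h1 h2
    have h3 : l ∣ (n : ℤ) * Y ^ (n - 1) := (dvd_geom_sum₂_iff_of_dvd_sub h1).1 h2
    rcases hl.dvd_or_dvd h3 with h4 | h4
    · exact hl.not_isUnit (hc.isUnit_of_dvd' h1 h4)
    · have h5 : l ∣ Y := hl.dvd_of_dvd_pow h4
      have h6 : l ∣ X := by
        have := dvd_add h1 h5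
        simpa using this
      exact hl.not_isUnit (hXY.isUnit_of_dvd' h6 h5)

lemma cof_cast_self {t : ℕ} (n : ℕ) (X Y : ℤ) (h : ((X : ℤ) : ZMod t) = (Y : ZMod t)) :
    ((cof n X Y : ℤ) : ZMod t) = (n : ZMod t) * (Y : ZMod t) ^ (n - 1) := by
  unfold cof
  push_cast
  rw [h]
  exact geom_sum₂_self _ n

/-- A product of two coprime integers which is an odd perfect power. -/
lemma split_pow {a b c : ℤ} (hab : IsCoprime a b) {k : ℕ} (hk : Odd k) (h : a * b = c ^ k) :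
    ∃ u v : ℤ, a = u ^ k ∧ b = v ^ k ∧ u * v = c := by
  obtain ⟨⟨u, hu⟩, ⟨v, hv⟩⟩ := Int.eq_pow_of_mul_eq_pow_odd hab hk h
  refine ⟨u, v, hu, hv, ?_⟩
  have : (u * v) ^ k = c ^ k := by rw [mul_pow, ← hu, ← hv, h]
  exact hk.strictMono_pow.injective this

section field

variable {p t : ℕ} [Fact t.Prime]

lemma pow_two_p (ht : t = 2 * p + 1) (a : ZMod t) (ha : a ≠ 0) : a ^ (2 * p) = 1 := by
  have h := ZMod.pow_card_sub_one_eq_one ha
  have h2 : t - 1 = 2 * p := by omega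
  rwa [h2] at h

lemma pow_p_eq (ht : t = 2 * p + 1) (a : ZMod t) (ha : a ≠ 0) : a ^ p = 1 ∨ a ^ p = -1 := by
  have h := pow_two_p ht a ha
  have h2 : (a ^ p) * (a ^ p) = 1 := by rw [← pow_add, ← two_mul]; exact h
  exact mul_self_eq_one_iff.1 h2

lemma pow_p_cases (ht : t = 2 * p + 1) (hp : p ≠ 0) (a : ZMod t) :
    (a = 0 ∧ a ^ p = 0) ∨ a ^ p = 1 ∨ a ^ p = -1 := by
  rcases eq_or_ne a 0 with h | h
  · left; exact ⟨h, by rw [h]; exact zero_pow hp⟩
  · right; exact pow_p_eq ht a h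

/-- If `a ^ 2 ≠ 1` and `a ^ (2 N) = 1` then `p ∣ N`. -/
lemma dvd_of_pow_eq_one (ht : t = 2 * p + 1) (hp : p.Prime) (a : ZMod t) (ha : a ≠ 0)
    (h2 : a ^ 2 ≠ 1) (N : ℕ) (hN : a ^ (2 * N) = 1) : p ∣ N := by
  by_contra hd
  have hc : Nat.Coprime p N := (Nat.Prime.coprime_iff_not_dvd hp).2 hd
  have h1 := pow_two_p ht a ha
  have h3 : a ^ (Nat.gcd (2 * p) (2 * N)) = 1 := pow_gcd_eq_one.2 ⟨h1, hN⟩
  rw [Nat.gcd_mul_left, hc] at h3
  exact h2 (by simpa using h3)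

/-- Injectivity of odd powers prime to `p`. -/
lemma pow_inj (ht : t = 2 * p + 1) (hp : p.Prime) (q : ℕ) (hq : Odd q) (hqp : ¬ p ∣ q)
    (a b : ZMod t) (h : a ^ q = b ^ q) : a = b := by
  have hq0 : q ≠ 0 := by rintro rfl; exact absurd hq (by decide)
  rcases eq_or_ne b 0 with hb | hb
  · subst hb
    rw [zero_pow hq0] at h
    exact eq_zero_of_pow_eq_zero h |> id
  · have ha : a ≠ 0 := by
      rintro rfl
      rw [zero_pow hq0] at h
      exact hb (eq_zero_of_pow_eq_zero h.symm)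
    have h1 : (a / b) ^ q = 1 := by
      rw [div_pow, h, div_self (pow_ne_zero _ hb)]
    have hab : a / b ≠ 0 := div_ne_zero ha hb
    have h2 := pow_two_p ht (a / b) hab
    have h3 : (a / b) ^ (Nat.gcd (2 * p) q) = 1 := pow_gcd_eq_one.2 ⟨h2, h1⟩
    have h4 : Nat.gcd (2 * p) q = 1 := by
      apply Nat.Coprime.mul_left
      · exact (Nat.coprime_two_left).2 hq
      · exact (Nat.Prime.coprime_iff_not_dvd hp).2 hqp
    rw [h4, pow_one] at h3
    exact (div_eq_one_iff_eq hb).1 h3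

end field

end Pool.Agent.H326R2
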