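import Mathlib
import Pool.Agent.H326R2.Basic

/-!
The local (modulo an auxiliary prime) part of the arguments.
-/

namespace Pool.Agent.H326R2

/-- `t` is an auxiliary modulus for `(M, p, q)`:
`q` is not a `p`-th power modulo `t`, and there are no `a, b, c, d` modulo `t`, `c` and `d` nonzero,
with `(M c ^ p ± d ^ p) ^ q = M ^ (q - 1) (M a ^ p ± b ^ p)` for both choices of the sign. -/
def Aux (M p q t : ℕ) : Prop :=
  (∀ a : ZMod t, a ^ p ≠ (q : ZMod t)) ∧
  ∀ a b c d : ZMod t, c ≠ 0 → d ≠ 0 →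
    ¬ (((M : ZMod t) * c ^ p + d ^ p) ^ q = (M : ZMod t) ^ (q - 1) * ((M : ZMod t) * a ^ p + b ^ p) ∧
       ((M : ZMod t) * c ^ p - d ^ p) ^ q = (M : ZMod t) ^ (q - 1) * ((M : ZMod t) * a ^ p - b ^ p))

lemma two_ne_zero' {t : ℕ} [Fact t.Prime] (ht2 : t ≠ 2) : (2 : ZMod t) ≠ 0 := by
  intro h
  have h' : ((2 : ℕ) : ZMod t) = 0 := by exact_mod_cast h
  rw [ZMod.natCast_eq_zero_iff] at h'
  exact ht2 ((Nat.prime_dvd_prime_iff_eq (Fact.out : t.Prime) Nat.prime_two).1 h')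

/-- The key local computation. -/
lemma local_key {M p q t : ℕ} [Fact t.Prime] (ht2 : t ≠ 2) (hM : (M : ZMod t) ≠ 0)
    (hp : Odd p) (hq : Odd q) (haux : Aux M p q t)
    (A B C D e f g k G H : ZMod t) (hAB : ¬ (A = 0 ∧ B = 0))
    (hC : M * C ^ q = M * A ^ p + B ^ p) (hD : M * D ^ q = M * A ^ p - B ^ p)
    (hc : M * C = M * k ^ p + e ^ p) (hd : M * D = M * k ^ p - e ^ p)
    (hG : C = D → G = (q : ZMod t) * D ^ (q - 1)) (hf : G = f ^ p)
    (hH : C = -D → H = (q : ZMod t) * C ^ (q - 1)) (hg : H = g ^ p) : False := by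
  obtain ⟨a3, a4⟩ := haux
  have hp0 : p ≠ 0 := hp.pos.ne'
  have hq0 : q ≠ 0 := hq.pos.ne'
  have hq1 : q - 1 + 1 = q := by have := hq.pos; omega
  have two_ne : (2 : ZMod t) ≠ 0 := two_ne_zero' ht2
  have hMq : (M : ZMod t) ^ q = M * M ^ (q - 1) := by rw [← pow_succ', hq1]
  by_cases he0 : e = 0
  · subst he0
    rw [zero_pow hp0, add_zero] at hc
    rw [zero_pow hp0, sub_zero] at hd
    have hCk : C = k ^ p := mul_left_cancel₀ hM hc
    have hDk : D = k ^ p := mul_left_cancel₀ hM hd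
    have hCD : C = D := by rw [hCk, hDk]
    have hB : B = 0 := by
      have h1 : 2 * B ^ p = 0 := by
        rw [hCD] at hC
        linear_combination hD - hC
      exact eq_zero_of_pow_eq_zero ((mul_eq_zero.1 h1).resolve_left two_ne)
    have hA : A ≠ 0 := fun h => hAB ⟨h, hB⟩
    have hDq : D ^ q = A ^ p := by
      rw [hB, zero_pow hp0, sub_zero] at hD
      exact mul_left_cancel₀ hM hD
    have hk0 : k ≠ 0 := by
      rintro rfl
      rw [zero_pow hp0] at hDk
      rw [hDk, zero_pow hq0] at hDq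
      exact pow_ne_zero p hA hDq.symm
    have hG' := hG hCD
    rw [hf, hDk] at hG'
    apply a3 (f / k ^ (q - 1))
    rw [div_pow, hG', ← pow_mul, ← pow_mul, mul_comm p (q - 1), mul_div_cancel_right₀]
    exact pow_ne_zero _ hk0
  · by_cases hk0 : k = 0
    · subst hk0
      rw [zero_pow hp0, mul_zero, zero_add] at hc
      rw [zero_pow hp0, mul_zero, zero_sub] at hd
      have hCD : C = -D := by
        have : M * C = M * -D := by linear_combination hc + hd
        exact mul_left_cancel₀ hM this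
      have hA : A = 0 := by
        have h1 : (2 * M) * A ^ p = 0 := by
          rw [hCD, hq.neg_pow] at hC
          linear_combination (-1) * hC - hD
        exact eq_zero_of_pow_eq_zero ((mul_eq_zero.1 h1).resolve_left (mul_ne_zero two_ne hM))
      have hB : B ≠ 0 := fun h => hAB ⟨hA, h⟩
      have hC' : M * C ^ q = B ^ p := by rw [hC, hA, zero_pow hp0]; ring
      have hH' := hH hCD
      rw [hg] at hH'
      -- (M C) ^ q = M ^ (q-1) B ^ p
      have h3 : M ^ (q - 1) * B ^ p = (e ^ q) ^ p := by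
        calc (M : ZMod t) ^ (q - 1) * B ^ p = M ^ (q - 1) * (M * C ^ q) := by rw [hC']
          _ = (M * C) ^ q := by rw [mul_pow, hMq]; ring
          _ = (e ^ q) ^ p := by rw [hc, ← pow_mul, ← pow_mul, mul_comm]
      have h4 : M ^ (q - 1) * C ^ (q - 1) = (e ^ (q - 1)) ^ p := by
        rw [← mul_pow, hc, ← pow_mul, ← pow_mul, mul_comm]
      apply a3 (g * e / B)
      rw [div_pow, mul_pow, hH']
      rw [div_eq_iff (pow_ne_zero _ hB)]
      have h5 : (e ^ q) ^ p = (e ^ (q - 1)) ^ p * e ^ p := by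
        rw [← mul_pow, ← pow_succ, hq1]
      rw [h5, ← h4] at h3
      have hMq1 : (M : ZMod t) ^ (q - 1) ≠ 0 := pow_ne_zero _ hM
      have h6 : B ^ p = C ^ (q - 1) * e ^ p := by
        apply mul_left_cancel₀ hMq1
        rw [h3]; ring
      rw [h6]; ring
    · refine a4 A B k e hk0 he0 ⟨?_, ?_⟩
      · rw [← hc, mul_pow, hMq, ← hC]; ring
      · rw [← hd, mul_pow, hMq, ← hD]; ring

lemma small_ne {t : ℕ} [Fact t.Prime] (ht : 11 ≤ t) (a : ℕ) (ha : 0 < a) (ha' : a < 11) :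
    (a : ZMod t) ≠ 0 := by
  intro h
  rw [ZMod.natCast_eq_zero_iff] at h
  have := Nat.le_of_dvd ha h
  omega

lemma five_le (p q : ℕ) (hp : p.Prime) (h0 : (q : ZMod p) ≠ 0) (h1 : (q : ZMod p) ≠ 1)
    (h2 : (q : ZMod p) ≠ -1) : 5 ≤ p := by
  by_contra hlt
  have hlt' : p < 5 := by omega
  interval_cases p
  · exact absurd hp (by decide)
  · exact absurd hp (by decide)
  · have : ∀ a : ZMod 2, a = 0 ∨ a = 1 := by decide
    rcases this (q : ZMod 2) with h | h
    · exact h0 h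
    · exact h1 h
  · have : ∀ a : ZMod 3, a = 0 ∨ a = 1 ∨ a = -1 := by decide
    rcases this (q : ZMod 3) with h | h | h
    · exact h0 h
    · exact h1 h
    · exact h2 h
  · exact absurd hp (by decide)

lemma not_dvd_of_cast {p q : ℕ} (h0 : (q : ZMod p) ≠ 0) : ¬ p ∣ q := by
  intro hd; exact h0 ((ZMod.natCast_eq_zero_iff _ _).2 hd)

lemma not_dvd_sub_of_cast {p q : ℕ} (hq1 : 1 ≤ q) (h1 : (q : ZMod p) ≠ 1) : ¬ p ∣ q - 1 := by
  intro hd
  have := (ZMod.natCast_eq_zero_iff (q - 1) p).2 hd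
  rw [Nat.cast_sub hq1, Nat.cast_one, sub_eq_zero] at this
  exact h1 this

lemma not_dvd_add_of_cast {p q : ℕ} (h2 : (q : ZMod p) ≠ -1) : ¬ p ∣ q + 1 := by
  intro hd
  have := (ZMod.natCast_eq_zero_iff (q + 1) p).2 hd
  rw [Nat.cast_add, Nat.cast_one] at this
  exact h2 (eq_neg_of_add_eq_zero_left this)

lemma sqp {p t : ℕ} [Fact t.Prime] (ht : t = 2 * p + 1) (a : ZMod t) (ha : a ≠ 0) :
    (a ^ p) ^ 2 = 1 := by
  rcases pow_p_eq ht a ha with h | h <;> rw [h] <;> ring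

/-- `M = 2`: for a Sophie Germain prime `p`, the prime `2 p + 1` is auxiliary for `(2, p, q)`
unless `q` is `0, ±1` modulo `p` or modulo `2 p + 1`. -/
theorem aux_two (p q : ℕ) (hp : p.Prime) (ht : (2 * p + 1).Prime) (hq : Odd q)
    (h0 : (q : ZMod p) ≠ 0) (h1 : (q : ZMod p) ≠ 1) (h2 : (q : ZMod p) ≠ -1)
    (k0 : (q : ZMod (2 * p + 1)) ≠ 0) (k1 : (q : ZMod (2 * p + 1)) ≠ 1)
    (k2 : (q : ZMod (2 * p + 1)) ≠ -1) : Aux 2 p q (2 * p + 1) := by
  have hp5 := five_le p q hp h0 h1 h2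
  have : Fact (2 * p + 1).Prime := ⟨ht⟩
  have hq1 : 1 ≤ q := hq.pos
  have hp0 : p ≠ 0 := hp.ne_zero
  have d0 : ¬ p ∣ q := not_dvd_of_cast h0
  have d1 : ¬ p ∣ q - 1 := not_dvd_sub_of_cast hq1 h1
  have d2 : ¬ p ∣ q + 1 := not_dvd_add_of_cast h2
  have ht11 : 11 ≤ 2 * p + 1 := by omega
  have two_ne : (2 : ZMod (2 * p + 1)) ≠ 0 := by
    exact_mod_cast small_ne ht11 2 (by norm_num) (by norm_num)
  have three_ne : (3 : ZMod (2 * p + 1)) ≠ 0 := by
    exact_mod_cast small_ne ht11 3 (by norm_num) (by norm_num)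
  have four_ne : (2 : ZMod (2 * p + 1)) ^ 2 ≠ 1 := by
    intro h
    apply three_ne
    linear_combination h
  have nine_ne : (3 : ZMod (2 * p + 1)) ^ 2 ≠ 1 := by
    intro h
    have h8 : (8 : ZMod (2 * p + 1)) ≠ 0 := by
      exact_mod_cast small_ne ht11 8 (by norm_num) (by norm_num)
    apply h8
    linear_combination h
  have key2 : (2 : ZMod (2 * p + 1)) ^ (2 * (q - 1)) ≠ 1 := by
    intro h
    exact d1 (dvd_of_pow_eq_one rfl hp 2 two_ne four_ne (q - 1) h)
  have key3 : (3 : ZMod (2 * p + 1)) ^ (2 * (q + 1)) ≠ 1 := by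
    intro h
    exact d2 (dvd_of_pow_eq_one rfl hp 3 three_ne nine_ne (q + 1) h)
  have key0 : (3 : ZMod (2 * p + 1)) ^ (2 * q) ≠ 1 := by
    intro h
    exact d0 (dvd_of_pow_eq_one rfl hp 3 three_ne nine_ne q h)
  refine ⟨?_, ?_⟩
  · intro a ha
    rcases pow_p_cases rfl hp0 a with ⟨_, h⟩ | h | h
    · exact k0 (ha.symm.trans h)
    · exact k1 (ha.symm.trans h)
    · exact k2 (ha.symm.trans h)
  · rintro a b c d hc hd ⟨r1, r2⟩
    have e1 : (d ^ p) ^ 2 = 1 := sqp rfl d hd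
    have e2 : (c ^ p) ^ 2 = 1 := sqp rfl c hc
    set ε := d ^ p with hε
    set η := c ^ p with hη
    push_cast at r1 r2
    set u := (2 : ZMod (2 * p + 1)) ^ (q - 1) with hu
    have hu2 : u ^ 2 ≠ 1 := by
      rw [hu, ← pow_mul, mul_comm (q - 1) 2]; exact key2
    have t1 : (5 + 4 * (η * ε)) = (2 * η + ε) ^ 2 := by linear_combination (-4) * e2 - e1
    have t2 : (5 - 4 * (η * ε)) = (2 * η - ε) ^ 2 := by linear_combination (-4) * e2 - e1
    have n1 : (5 + 4 * (1 : ZMod (2 * p + 1))) = 3 ^ 2 := by norm_num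
    have n2 : (5 - 4 * (1 : ZMod (2 * p + 1))) = 1 := by norm_num
    have n3 : (5 + 4 * (-1 : ZMod (2 * p + 1))) = 1 := by norm_num
    have n4 : (5 - 4 * (-1 : ZMod (2 * p + 1))) = 3 ^ 2 := by norm_num
    have c1 : η * ε = 1 ∨ η * ε = -1 := by
      apply mul_self_eq_one_iff.1
      linear_combination ε ^ 2 * e2 + e1
    have s1 : (5 + 4 * (η * ε)) ^ q = u ^ 2 * (2 * a ^ p + b ^ p) ^ 2 := by
      rw [t1, ← pow_mul, mul_comm 2 q, pow_mul, r1]; ring
    have s2 : (5 - 4 * (η * ε)) ^ q = u ^ 2 * (2 * a ^ p - b ^ p) ^ 2 := by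
      rw [t2, ← pow_mul, mul_comm 2 q, pow_mul, r2]; ring
    -- if one of a, b vanishes
    have vanish : (2 * a ^ p + b ^ p) ^ 2 = (2 * a ^ p - b ^ p) ^ 2 → False := by
      intro h
      rw [h, ← s2] at s1
      apply key0
      rcases c1 with c1 | c1 <;> rw [c1] at s1
      · rw [n1, n2, one_pow] at s1
        rw [pow_mul]; exact s1
      · rw [n3, n4, one_pow] at s1
        rw [pow_mul]; exact s1.symm
    by_cases ha : a = 0
    · apply vanish
      rw [ha, zero_pow hp0]; ring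
    by_cases hb : b = 0
    · apply vanish
      rw [hb, zero_pow hp0]; ring
    have e3 : (a ^ p) ^ 2 = 1 := sqp rfl a ha
    have e4 : (b ^ p) ^ 2 = 1 := sqp rfl b hb
    set α := a ^ p with hα
    set τ := b ^ p with hτ
    have s1' : (5 + 4 * (η * ε)) ^ q = u ^ 2 * (5 + 4 * (α * τ)) := by
      rw [s1]; linear_combination (4 * u ^ 2) * e3 + u ^ 2 * e4
    have s2' : (5 - 4 * (η * ε)) ^ q = u ^ 2 * (5 - 4 * (α * τ)) := by
      rw [s2]; linear_combination (4 * u ^ 2) * e3 + u ^ 2 * e4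
    have c2 : α * τ = 1 ∨ α * τ = -1 := by
      apply mul_self_eq_one_iff.1
      linear_combination τ ^ 2 * e3 + e4
    have fin3 : u ^ 2 * 3 ^ 2 = 1 → ((3 : ZMod (2 * p + 1)) ^ 2) ^ q = u ^ 2 → False := by
      intro a1 a2
      apply key3
      rw [mul_add, pow_add, mul_one, pow_mul, a2]
      exact a1
    rcases c1 with c1 | c1 <;> rcases c2 with c2 | c2 <;> rw [c1, c2] at s1' s2'
    · rw [n2, one_pow, mul_one] at s2'
      exact hu2 s2'.symm
    · rw [n2, n4, one_pow] at s2'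
      rw [n1, n3, mul_one] at s1'
      exact fin3 s2'.symm s1'
    · rw [n3, n1, one_pow] at s1'
      rw [n4, n2, mul_one] at s2'
      exact fin3 s1'.symm s2'
    · rw [n3, one_pow, mul_one] at s1'
      exact hu2 s1'.symm

end Pool.Agent.H326R2
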