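import Mathlib
import Pool.Agent.H326R2.Local

/-!
A Boolean check of the auxiliary conditions.
-/

namespace Pool.Agent.H326R2

/-- trial division -/
def chkPrime (t : ℕ) : Bool :=
  decide (2 ≤ t) && (List.range 100).all (fun m => decide (m < 2) || decide (t < m * m) || decide (t % m ≠ 0)) &&
    decide (t < 9900)

lemma chkPrime_sound {t : ℕ} (h : chkPrime t = true) : t.Prime := by
  unfold chkPrime at h
  simp only [Bool.and_eq_true, decide_eq_true_eq, List.all_eq_true, List.mem_range,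
    Bool.or_eq_true] at h
  obtain ⟨⟨h2, h3⟩, h4⟩ := h
  rw [Nat.prime_def_le_sqrt]
  refine ⟨h2, ?_⟩
  intro m hm hms hd
  have hmm : m * m ≤ t := Nat.le_sqrt.1 hms
  have hm100 : m < 100 := by
    by_contra hc
    have : 100 * 100 ≤ m * m := Nat.mul_le_mul (by omega) (by omega)
    omega
  rcases h3 m hm100 with (h5 | h5) | h5
  · omega
  · omega
  · exact h5 (Nat.mod_eq_zero_of_dvd hd)

/-- `P` contains all nonzero `p`-th powers modulo `t`, all its members are less than `t`. -/
def chkPows (p t : ℕ) (P : List ℕ) : Bool :=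
  (List.range t).all (fun a => decide (a = 0) || P.contains ((a ^ p) % t)) && P.all (fun a => decide (a < t))

/-- fast membership -/
def memb (n : ℕ) : List ℕ → Bool
  | [] => false
  | a :: l => if Nat.beq a n then true else memb n l

lemma memb_of_mem {n : ℕ} {l : List ℕ} (h : n ∈ l) : memb n l = true := by
  induction l with
  | nil => cases h
  | cons a l ih =>
    unfold memb
    rcases List.mem_cons.1 h with h | h
    · subst h
      simp
    · rw [ih h]; simp

def chkOne (M q u t : ℕ) (P : List ℕ) (d : ℕ) : Bool :=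
  memb (((M + d) ^ q + (M + (t - d)) ^ q) % t) ((0 :: P).map fun a => (2 * M * u * a) % t) &&
    memb (((M + d) ^ q + (t - 1) * (M + (t - d)) ^ q) % t) ((0 :: P).map fun b => (2 * u * b) % t)

def chkAux (M q t : ℕ) (P : List ℕ) : Bool :=
  decide (q % t ≠ 0) && (!(memb (q % t) P)) &&
    P.all (fun d => !(chkOne M q ((M ^ (q - 1)) % t) t P d))

lemma not_mem_of_contains {l : List ℕ} {a : ℕ}
    (h : memb a l = false) : a ∉ l := by
  intro hm
  rw [memb_of_mem hm] at h
  cases h

lemma pows_sound {p t : ℕ} [Fact t.Prime] {P : List ℕ} (h : chkPows p t P = true)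
    (a : ZMod t) (ha : a ≠ 0) : ∃ n ∈ P, n < t ∧ a ^ p = (n : ZMod t) := by
  unfold chkPows at h
  simp only [Bool.and_eq_true, decide_eq_true_eq, List.all_eq_true, List.mem_range,
    Bool.or_eq_true, List.contains_iff_mem] at h
  obtain ⟨h1, h2⟩ := h
  have hv : a.val < t := ZMod.val_lt a
  rcases h1 a.val hv with h3 | h3
  · exfalso
    apply ha
    exact (ZMod.val_eq_zero a).1 h3
  · refine ⟨_, h3, h2 _ h3, ?_⟩
    rw [ZMod.natCast_mod, Nat.cast_pow, ZMod.natCast_zmod_val]

lemma pows_sound' {p t : ℕ} (hp : p ≠ 0) [Fact t.Prime] {P : List ℕ} (h : chkPows p t P = true)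
    (a : ZMod t) : ∃ n ∈ (0 :: P), n < t ∧ a ^ p = (n : ZMod t) := by
  rcases eq_or_ne a 0 with ha | ha
  · exact ⟨0, by simp, (Fact.out : t.Prime).pos, by rw [ha, zero_pow hp]; simp⟩
  · obtain ⟨n, hn, h1, h2⟩ := pows_sound h a ha
    exact ⟨n, List.mem_cons_of_mem _ hn, h1, h2⟩

lemma aux_sound {M p q t : ℕ} (hp : p ≠ 0) (ht : t.Prime) (P : List ℕ)
    (h1 : chkPows p t P = true) (h2 : chkAux M q t P = true) : Aux M p q t := by
  have : Fact t.Prime := ⟨ht⟩
  unfold chkAux at h2
  simp only [Bool.and_eq_true, decide_eq_true_eq, List.all_eq_true, Bool.not_eq_true'] at h2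
  obtain ⟨⟨h3, h4⟩, h5⟩ := h2
  constructor
  · intro a ha
    obtain ⟨n, hn, hnt, hn2⟩ := pows_sound' hp h1 a
    rw [hn2] at ha
    have h6 : n = q % t := by
      have := (ZMod.natCast_eq_natCast_iff' n q t).1 ha
      rw [← this, Nat.mod_eq_of_lt hnt]
    rcases List.mem_cons.1 hn with h7 | h7
    · exact h3 (by rw [← h6, h7])
    · exact not_mem_of_contains h4 (h6 ▸ h7)
  · rintro a b c d hc hd ⟨r1, r2⟩
    obtain ⟨nd, hnd, hndt, hnd2⟩ := pows_sound h1 (d / c) (div_ne_zero hd hc)
    obtain ⟨na, hna, hnat, hna2⟩ := pows_sound' hp h1 (a / c ^ q)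
    obtain ⟨nb, hnb, hnbt, hnb2⟩ := pows_sound' hp h1 (b / c ^ q)
    have hcp : c ^ p ≠ 0 := pow_ne_zero _ hc
    have hcpq : (c ^ p) ^ q ≠ 0 := pow_ne_zero _ hcp
    have e1 : d ^ p = nd * c ^ p := by
      rw [← hnd2, div_pow, div_mul_cancel₀ _ hcp]
    have hcq : (c ^ q) ^ p = (c ^ p) ^ q := by rw [← pow_mul, ← pow_mul, mul_comm]
    have e2 : a ^ p = na * (c ^ p) ^ q := by
      rw [← hna2, div_pow, hcq, div_mul_cancel₀ _ hcpq]
    have e3 : b ^ p = nb * (c ^ p) ^ q := by
      rw [← hnb2, div_pow, hcq, div_mul_cancel₀ _ hcpq]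
    have f1 : ((M : ZMod t) + nd) ^ q = (M : ZMod t) ^ (q - 1) * ((M : ZMod t) * na + nb) := by
      apply mul_right_cancel₀ hcpq
      rw [← mul_pow]
      calc (((M : ZMod t) + nd) * c ^ p) ^ q = ((M : ZMod t) * c ^ p + d ^ p) ^ q := by
            rw [e1]; ring
        _ = _ := by rw [r1, e2, e3]; ring
    have f2 : ((M : ZMod t) - nd) ^ q = (M : ZMod t) ^ (q - 1) * ((M : ZMod t) * na - nb) := by
      apply mul_right_cancel₀ hcpq
      rw [← mul_pow]
      calc (((M : ZMod t) - nd) * c ^ p) ^ q = ((M : ZMod t) * c ^ p - d ^ p) ^ q := by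
            rw [e1]; ring
        _ = _ := by rw [r2, e2, e3]; ring
    have ht1 : ((t - 1 : ℕ) : ZMod t) = -1 := by
      rw [Nat.cast_sub ht.one_le, ZMod.natCast_self]; simp
    have g1 : ((M + nd) ^ q + (M + (t - nd)) ^ q) % t = (2 * M * ((M ^ (q - 1)) % t) * na) % t := by
      rw [← ZMod.natCast_eq_natCast_iff']
      push_cast [Nat.cast_sub hndt.le, ZMod.natCast_mod]
      rw [ZMod.natCast_self]
      have h8 : (M : ZMod t) + (0 - nd) = M - nd := by ring
      rw [h8, f1, f2]; ring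
    have g2 : ((M + nd) ^ q + (t - 1) * (M + (t - nd)) ^ q) % t =
        (2 * ((M ^ (q - 1)) % t) * nb) % t := by
      rw [← ZMod.natCast_eq_natCast_iff']
      push_cast [Nat.cast_sub hndt.le, ZMod.natCast_mod, ht1]
      rw [ZMod.natCast_self]
      have h8 : (M : ZMod t) + (0 - nd) = M - nd := by ring
      rw [h8, f1, f2]; ring
    have h6 := h5 nd hnd
    unfold chkOne at h6
    rw [Bool.and_eq_false_iff] at h6
    rcases h6 with h6 | h6
    · apply not_mem_of_contains h6
      rw [List.mem_map]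
      exact ⟨na, hna, g1.symm⟩
    · apply not_mem_of_contains h6
      rw [List.mem_map]
      exact ⟨nb, hnb, g2.symm⟩

end Pool.Agent.H326R2
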