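import Mathlib
import Pool.Agent.H326R2.Local

/-!
Odd powers in the Gaussian integers.
-/

namespace Pool.Agent.H326R2

open Zsqrtd

lemma gauss_mul (a b c d : ℤ) : (⟨a, b⟩ : GaussianInt) * ⟨c, d⟩ = ⟨a * c - b * d, a * d + b * c⟩ := by
  ext <;> simp [Zsqrtd.re_mul, Zsqrtd.im_mul]; ring

/-- first order expansion in `β` -/
lemma gauss_pow_im (α β : ℤ) (r : ℕ) :
    ∃ s t : ℤ, (⟨α, β⟩ : GaussianInt) ^ r = ⟨α ^ r + β ^ 2 * s, r * α ^ (r - 1) * β + β ^ 2 * t⟩ := by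
  induction r with
  | zero => exact ⟨0, 0, by ext <;> simp⟩
  | succ r ih =>
    obtain ⟨s, t, h⟩ := ih
    refine ⟨α * s - r * α ^ (r - 1) - β * t, α * t + β * s, ?_⟩
    rw [pow_succ, h, gauss_mul]
    rcases Nat.eq_zero_or_pos r with hr | hr
    · subst hr
      ext <;> push_cast <;> simp <;> ring
    · obtain ⟨j, rfl⟩ : ∃ j, r = j + 1 := ⟨r - 1, by omega⟩
      ext <;> push_cast <;> (try simp only [Nat.add_sub_cancel]) <;> ring

/-- first order expansion in `α`, odd exponent -/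
lemma gauss_pow_re (α β : ℤ) (k : ℕ) :
    ∃ s t ε : ℤ, (ε = 1 ∨ ε = -1) ∧ (⟨α, β⟩ : GaussianInt) ^ (2 * k + 1) =
      ⟨ε * (2 * k + 1) * β ^ (2 * k) * α + α ^ 2 * s, ε * β ^ (2 * k + 1) + α ^ 2 * t⟩ := by
  induction k with
  | zero => exact ⟨0, 0, 1, Or.inl rfl, by ext <;> simp⟩
  | succ k ih =>
    obtain ⟨s, t, ε, hε, h⟩ := ih
    refine ⟨(ε * (2 * k + 1) * β ^ (2 * k) * α + α ^ 2 * s) - β ^ 2 * s - 2 * α * β * t,
      (ε * β ^ (2 * k + 1) + α ^ 2 * t) - β ^ 2 * t +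
        2 * β * (ε * (2 * k + 1) * β ^ (2 * k) + α * s), -ε, ?_, ?_⟩
    · rcases hε with h | h <;> rw [h] <;> simp
    · have h2 : 2 * (k + 1) + 1 = (2 * k + 1) + 2 := by ring
      rw [h2, pow_add, h]
      have h3 : (⟨α, β⟩ : GaussianInt) ^ 2 = ⟨α ^ 2 - β ^ 2, 2 * α * β⟩ := by
        rw [sq, gauss_mul]; ext <;> simp <;> ring
      rw [h3, gauss_mul]
      ext <;> push_cast <;> ring

lemma gauss_coprime (m n : ℤ) (hmn : IsCoprime m n) (hodd : Odd (m ^ 2 + n ^ 2)) :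
    IsCoprime (⟨m, n⟩ : GaussianInt) ⟨m, -n⟩ := by
  obtain ⟨u, v, huv⟩ := hmn
  obtain ⟨j, hj⟩ := hodd
  -- z = m + n i, w = m - n i ; z + w = 2 m ; z - w = 2 n i
  -- z * w = m^2 + n^2 = 2 j + 1
  have h1 : (⟨m, n⟩ : GaussianInt) + ⟨m, -n⟩ = 2 * ((m : ℤ) : GaussianInt) := by
    ext <;> simp; ring
  have h2 : (⟨0, -1⟩ : GaussianInt) * (⟨m, n⟩ - ⟨m, -n⟩) = 2 * ((n : ℤ) : GaussianInt) := by
    ext <;> simp; ring
  have h3 : (⟨m, n⟩ : GaussianInt) * ⟨m, -n⟩ = 2 * ((j : ℤ) : GaussianInt) + 1 := by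
    rw [gauss_mul]
    ext
    · simp; linarith
    · simp; ring
  have h4 : ((u : ℤ) : GaussianInt) * ((m : ℤ) : GaussianInt) + ((v : ℤ) : GaussianInt) * ((n : ℤ) : GaussianInt) = 1 := by
    exact_mod_cast congrArg (Int.cast : ℤ → GaussianInt) huv
  -- 2 = u (z + w) + v (-i) (z - w)
  set z : GaussianInt := ⟨m, n⟩
  set w : GaussianInt := ⟨m, -n⟩
  set I' : GaussianInt := ⟨0, -1⟩
  have h5 : (2 : GaussianInt) = ((u : ℤ) : GaussianInt) * (z + w) + ((v : ℤ) : GaussianInt) * (I' * (z - w)) := by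
    rw [h1, h2]
    linear_combination (-2) * h4
  refine ⟨w - ((j : ℤ) : GaussianInt) * (((u : ℤ) : GaussianInt) + ((v : ℤ) : GaussianInt) * I'),
    -((j : ℤ) : GaussianInt) * (((u : ℤ) : GaussianInt) - ((v : ℤ) : GaussianInt) * I'), ?_⟩
  linear_combination h3 + ((j : ℤ) : GaussianInt) * h5

lemma gauss_unit_pow_four (u : GaussianIntˣ) : (u : GaussianInt) ^ 4 = 1 := by
  have h1 : (u : GaussianInt).norm.natAbs = 1 := (Zsqrtd.norm_eq_one_iff).2 u.isUnit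
  obtain ⟨⟨a, b⟩, v, h, h'⟩ := u
  simp only at h1 ⊢
  rw [Zsqrtd.norm_def] at h1
  simp only at h1
  have h2 : a * a + b * b = 1 := by
    have h3 : (a * a - -1 * b * b).natAbs = (a * a + b * b).natAbs := by congr 1; ring
    rw [h3] at h1
    have h4 : 0 ≤ a * a + b * b := add_nonneg (mul_self_nonneg a) (mul_self_nonneg b)
    omega
  have ha : a * a = 0 ∧ b * b = 1 ∨ a * a = 1 ∧ b * b = 0 := by
    have h3 : 0 ≤ a * a := mul_self_nonneg a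
    have h4 : 0 ≤ b * b := mul_self_nonneg b
    omega
  have e : (⟨a, b⟩ : GaussianInt) ^ 2 = ⟨a * a - b * b, 2 * (a * b)⟩ := by
    rw [sq, gauss_mul]; ext <;> simp; ring
  have e4 : (⟨a, b⟩ : GaussianInt) ^ 4 = ((⟨a, b⟩ : GaussianInt) ^ 2) ^ 2 := by ring
  rw [e4, e]
  rcases ha with ⟨h3, h4⟩ | ⟨h3, h4⟩
  · have ha0 : a = 0 := by simpa using h3
    subst ha0
    rw [h4, sq, gauss_mul]; ext <;> simp
  · have hb0 : b = 0 := by simpa using h4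
    subst hb0
    rw [h3, sq, gauss_mul]; ext <;> simp

/-- `m ^ 2 + n ^ 2 = Z ^ r`, `r` odd, `m, n` coprime of opposite parity: `m + n i` is an `r`-th power. -/
lemma gauss_split (m n Z : ℤ) (r : ℕ) (hr : Odd r) (hmn : IsCoprime m n)
    (hodd : Odd (m ^ 2 + n ^ 2)) (h : m ^ 2 + n ^ 2 = Z ^ r) :
    ∃ α β : ℤ, (⟨m, n⟩ : GaussianInt) = ⟨α, β⟩ ^ r := by
  have hc := gauss_coprime m n hmn hodd
  have hprod : (⟨m, n⟩ : GaussianInt) * ⟨m, -n⟩ = ((Z : ℤ) : GaussianInt) ^ r := by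
    have h1 : ((Z : ℤ) : GaussianInt) ^ r = ⟨Z ^ r, 0⟩ := by
      rw [← Int.cast_pow]; rfl
    rw [h1, ← h, gauss_mul]
    ext <;> simp <;> ring
  obtain ⟨d, u, hd⟩ := exists_associated_pow_of_mul_eq_pow' hc hprod
  -- d ^ r * u = m + n i ; u = (u ^ r) ^ r
  obtain ⟨j, hj⟩ := hr
  have hu4 := gauss_unit_pow_four u
  have hu : (u : GaussianInt) = ((u : GaussianInt) ^ r) ^ r := by
    rw [← pow_mul]
    have h2 : r * r = 4 * (j * j + j) + 1 := by rw [hj]; ring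
    rw [h2, pow_add, pow_mul, hu4, one_pow, one_mul, pow_one]
  refine ⟨(d * (u : GaussianInt) ^ r).re, (d * (u : GaussianInt) ^ r).im, ?_⟩
  have h3 : (⟨(d * (u : GaussianInt) ^ r).re, (d * (u : GaussianInt) ^ r).im⟩ : GaussianInt) =
      d * (u : GaussianInt) ^ r := by ext <;> rfl
  rw [h3, mul_pow, ← hu, hd]

/-- Reduction of a power modulo `t`. -/
lemma gauss_cast_pow (t : ℕ) (z : GaussianInt) (r : ℕ) :
    (⟨((z.re : ℤ) : ZMod t), ((z.im : ℤ) : ZMod t)⟩ : QuadraticAlgebra (ZMod t) (-1) 0) ^ r =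
      ⟨(((z ^ r).re : ℤ) : ZMod t), (((z ^ r).im : ℤ) : ZMod t)⟩ := by
  induction r with
  | zero => ext <;> simp [QuadraticAlgebra.re_one, QuadraticAlgebra.im_one]
  | succ r ih =>
    rw [pow_succ, ih, pow_succ, QuadraticAlgebra.mk_mul_mk]
    ext <;> simp

end Pool.Agent.H326R2
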