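import Mathlib
import Pool.Agent.H326R2.Basic

/-!
Parametrisation of `x ^ (2 p) + Y ^ 2 = w ^ 2` with `x` even.
-/

namespace Pool.Agent.H326R2

/-- Sub-step: `x ^ p = 2 m n` with `m` odd, `m`, `n` coprime, `x` even. -/
lemma split_two_mul (p : ℕ) (hp : Odd p) (x m n : ℤ) (hx : Even x) (h : x ^ p = 2 * m * n)
    (hm : Odd m) (hmn : IsCoprime m n) :
    ∃ A B : ℤ, m = A ^ p ∧ n = 2 ^ (p - 1) * B ^ p ∧ x = 2 * (A * B) := by
  obtain ⟨x', rfl⟩ := hx.exists_two_nsmul _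
  obtain ⟨k, hk⟩ := hp
  have hp1 : p - 1 + 1 = p := by omega
  have h1 : (2 : ℤ) ^ (p - 1) * x' ^ p = m * n := by
    have h2 : (2 : ℤ) * (2 ^ (p - 1) * x' ^ p) = 2 * (m * n) := by
      have h3 : (2 • x') ^ p = (2 : ℤ) ^ p * x' ^ p := by
        rw [nsmul_eq_mul, mul_pow]; norm_cast
      rw [← mul_assoc, ← pow_succ', hp1, ← h3, h]; ring
    exact mul_left_cancel₀ two_ne_zero h2
  have h2 : IsCoprime ((2 : ℤ) ^ (p - 1)) m := by
    apply IsCoprime.pow_left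
    obtain ⟨j, hj⟩ := hm
    exact ⟨-j, 1, by rw [hj]; ring⟩
  have h3 : (2 : ℤ) ^ (p - 1) ∣ n := h2.dvd_of_dvd_mul_left ⟨x' ^ p, h1.symm⟩
  obtain ⟨n', rfl⟩ := h3
  have h4 : m * n' = x' ^ p := by
    have h5 : (2 : ℤ) ^ (p - 1) * (m * n') = 2 ^ (p - 1) * x' ^ p := by rw [h1]; ring
    exact mul_left_cancel₀ (pow_ne_zero _ two_ne_zero) h5
  have h6 : IsCoprime m n' := hmn.of_mul_right_right
  obtain ⟨A, B, hA, hB, hAB⟩ := split_pow h6 ⟨k, hk⟩ h4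
  refine ⟨A, B, hA, by rw [hB], ?_⟩
  rw [hAB, nsmul_eq_mul]; norm_cast

/-- The parametrisation. -/
lemma param (p q : ℕ) (hp : Odd p) (hq : Odd q) (x y w : ℤ) (hx : Even x)
    (hxy : IsCoprime x y) (h : (x ^ p) ^ 2 + (y ^ q) ^ 2 = w ^ 2) :
    ∃ A B y' : ℤ, (y' = y ∨ y' = -y) ∧ Odd A ∧ IsCoprime A B ∧ x = 2 * (A * B) ∧
      y' ^ q = (A ^ p) ^ 2 - (2 ^ (p - 1) * B ^ p) ^ 2 ∧
      w.natAbs = (A ^ p) ^ 2 + (2 ^ (p - 1) * B ^ p) ^ 2 ∧
      IsCoprime (A ^ p) (2 ^ (p - 1) * B ^ p) := by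
  have hyodd : Odd y := by
    rw [← Int.not_even_iff_odd]
    intro hy
    have h2 : (2 : ℤ) ∣ x := hx.two_dvd
    have h3 : (2 : ℤ) ∣ y := hy.two_dvd
    exact Int.prime_two.not_isUnit (hxy.isUnit_of_dvd' h2 h3)
  have hw : w ≠ 0 := by
    rintro rfl
    have h1 : 0 ≤ (x ^ p) ^ 2 := by positivity
    have h2 : 0 < (y ^ q) ^ 2 := by
      have : y ≠ 0 := by rintro rfl; exact absurd hyodd (by decide)
      positivity
    simp only [ne_eq, OfNat.ofNat_ne_zero, not_false_eq_true, zero_pow] at h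
    linarith
  have hpy : PythagoreanTriple (y ^ q) (x ^ p) |w| := by
    unfold PythagoreanTriple
    rw [abs_mul_abs_self]
    linarith [h]
  have hgcd : Int.gcd (y ^ q) (x ^ p) = 1 := by
    rw [← Int.isCoprime_iff_gcd_eq_one]
    exact (hxy.symm).pow
  have hpar : (y ^ q) % 2 = 1 := Int.odd_iff.1 hyodd.pow
  obtain ⟨m, n, h1, h2, h3, h4, h5, -⟩ := hpy.coprime_classification' hgcd hpar (abs_pos.2 hw)
  have h4' : IsCoprime m n := Int.isCoprime_iff_gcd_eq_one.2 h4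
  rcases h5 with ⟨hm, hn⟩ | ⟨hm, hn⟩
  · -- m even, n odd
    have hn' : Odd n := Int.odd_iff.2 hn
    obtain ⟨A, B, hA, hB, hAB⟩ := split_two_mul p hp x n m hx (by rw [h2]; ring) hn' h4'.symm
    refine ⟨A, B, -y, Or.inr rfl, ?_, ?_, hAB, ?_, ?_, ?_⟩
    · rw [hA] at hn'
      exact (Int.odd_pow' (by rintro rfl; exact absurd hp (by decide))).1 hn'
    · rw [hA, hB] at h4'
      have := (h4'.symm).of_mul_right_right
      have hp0 : 0 < p := hp.pos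
      exact (IsCoprime.pow_iff hp0 hp0).1 this
    · rw [hq.neg_pow, h1, ← hA, ← hB]; ring
    · rw [← hA, ← hB, Int.natCast_natAbs, h3]; ring
    · rw [← hA, ← hB]; exact h4'.symm
  · have hm' : Odd m := Int.odd_iff.2 hm
    obtain ⟨A, B, hA, hB, hAB⟩ := split_two_mul p hp x m n hx (by rw [h2]) hm' h4'
    refine ⟨A, B, y, Or.inl rfl, ?_, ?_, hAB, ?_, ?_, ?_⟩
    · rw [hA] at hm'
      exact (Int.odd_pow' (by rintro rfl; exact absurd hp (by decide))).1 hm'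
    · rw [hA, hB] at h4'
      have := (h4').of_mul_right_right
      have hp0 : 0 < p := hp.pos
      exact (IsCoprime.pow_iff hp0 hp0).1 this
    · rw [h1, ← hA, ← hB]
    · rw [← hA, ← hB, Int.natCast_natAbs, h3]
    · rw [← hA, ← hB]; exact h4'

end Pool.Agent.H326R2
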