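import Mathlib
import Pool.Agent.H326R2.Local

/-!
The equation `x ^ p + y ^ (2 s) = z ^ (2 s)`, `x` even.
-/

namespace Pool.Agent.H326R2

/-- `M = 4`: for a Sophie Germain prime `p ≥ 5`, the prime `2 p + 1` is auxiliary for `(4, p, q)`
unless `q` is `0, 1` modulo `p` or `0, ±1` modulo `2 p + 1`. -/
theorem aux_four (p q : ℕ) (hp : p.Prime) (hp5 : 5 ≤ p) (ht : (2 * p + 1).Prime) (hq : Odd q)
    (h0 : (q : ZMod p) ≠ 0) (h1 : (q : ZMod p) ≠ 1)
    (k0 : (q : ZMod (2 * p + 1)) ≠ 0) (k1 : (q : ZMod (2 * p + 1)) ≠ 1)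
    (k2 : (q : ZMod (2 * p + 1)) ≠ -1) : Aux 4 p q (2 * p + 1) := by
  have : Fact (2 * p + 1).Prime := ⟨ht⟩
  have hq1 : 1 ≤ q := hq.pos
  have hp0 : p ≠ 0 := hp.ne_zero
  have d0 : ¬ p ∣ q := not_dvd_of_cast h0
  have d1 : ¬ p ∣ q - 1 := not_dvd_sub_of_cast hq1 h1
  have ht11 : 11 ≤ 2 * p + 1 := by omega
  have two_ne : (2 : ZMod (2 * p + 1)) ≠ 0 := by
    exact_mod_cast small_ne ht11 2 (by norm_num) (by norm_num)
  have three_ne : (3 : ZMod (2 * p + 1)) ≠ 0 := by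
    exact_mod_cast small_ne ht11 3 (by norm_num) (by norm_num)
  have five_ne : (5 : ZMod (2 * p + 1)) ≠ 0 := by
    exact_mod_cast small_ne ht11 5 (by norm_num) (by norm_num)
  have sixteen_ne : (16 : ZMod (2 * p + 1)) ≠ 0 := by
    have : (16 : ZMod (2 * p + 1)) = 2 ^ 4 := by norm_num
    rw [this]; exact pow_ne_zero _ two_ne
  have thirtyone_ne : (31 : ZMod (2 * p + 1)) ≠ 0 := by
    intro h
    have h' : ((31 : ℕ) : ZMod (2 * p + 1)) = 0 := by exact_mod_cast h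
    rw [ZMod.natCast_eq_zero_iff] at h'
    have h2 := (Nat.prime_dvd_prime_iff_eq ht (by norm_num)).1 h'
    have h3 : p = 15 := by omega
    subst h3
    exact absurd hp (by norm_num)
  have keyA : ((5 : ZMod (2 * p + 1)) / 3) ^ 2 ≠ 1 := by
    rw [div_pow, Ne, div_eq_one_iff_eq (pow_ne_zero _ three_ne)]
    intro h
    apply sixteen_ne
    linear_combination h
  have keyB : ((15 : ZMod (2 * p + 1)) / 16) ^ 2 ≠ 1 := by
    rw [div_pow, Ne, div_eq_one_iff_eq (pow_ne_zero _ sixteen_ne)]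
    intro h
    apply thirtyone_ne
    linear_combination -h
  have fifteen_ne : (15 : ZMod (2 * p + 1)) ≠ 0 := by
    have : (15 : ZMod (2 * p + 1)) = 3 * 5 := by norm_num
    rw [this]; exact mul_ne_zero three_ne five_ne
  have keyq : ∀ n : ℕ, ¬ p ∣ n → ((5 : ZMod (2 * p + 1)) ^ 2) ^ n ≠ (3 ^ 2) ^ n := by
    intro n hn h
    apply hn
    apply dvd_of_pow_eq_one rfl hp (5 / 3) (div_ne_zero five_ne three_ne) keyA n
    rw [pow_mul, div_pow, div_pow, h, div_self]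
    exact pow_ne_zero _ (pow_ne_zero _ three_ne)
  have keyr : ∀ n : ℕ, ¬ p ∣ n → ((15 : ZMod (2 * p + 1)) ^ 2) ^ n ≠ (16 ^ 2) ^ n := by
    intro n hn h
    apply hn
    apply dvd_of_pow_eq_one rfl hp (15 / 16) (div_ne_zero fifteen_ne sixteen_ne) keyB n
    rw [pow_mul, div_pow, div_pow, h, div_self]
    exact pow_ne_zero _ (pow_ne_zero _ sixteen_ne)
  refine ⟨?_, ?_⟩
  · intro a ha
    rcases pow_p_cases rfl hp0 a with ⟨_, h⟩ | h | h
    · exact k0 (ha.symm.trans h)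
    · exact k1 (ha.symm.trans h)
    · exact k2 (ha.symm.trans h)
  · rintro a b c d hc hd ⟨r1, r2⟩
    have e1 : (d ^ p) ^ 2 = 1 := sqp rfl d hd
    have e2 : (c ^ p) ^ 2 = 1 := sqp rfl c hc
    set ε := d ^ p with hε
    set η := c ^ p with hη
    push_cast at r1 r2
    set u := (4 : ZMod (2 * p + 1)) ^ (q - 1) with hu
    have hu2 : u ^ 2 = 16 ^ (q - 1) := by
      rw [hu, ← pow_mul, mul_comm (q - 1) 2, pow_mul]; norm_num
    have t1 : (17 + 8 * (η * ε)) = (4 * η + ε) ^ 2 := by linear_combination (-16) * e2 - e1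
    have t2 : (17 - 8 * (η * ε)) = (4 * η - ε) ^ 2 := by linear_combination (-16) * e2 - e1
    have n1 : (17 + 8 * (1 : ZMod (2 * p + 1))) = 5 ^ 2 := by norm_num
    have n2 : (17 - 8 * (1 : ZMod (2 * p + 1))) = 3 ^ 2 := by norm_num
    have n3 : (17 + 8 * (-1 : ZMod (2 * p + 1))) = 3 ^ 2 := by norm_num
    have n4 : (17 - 8 * (-1 : ZMod (2 * p + 1))) = 5 ^ 2 := by norm_num
    have c1 : η * ε = 1 ∨ η * ε = -1 := by
      apply mul_self_eq_one_iff.1
      linear_combination ε ^ 2 * e2 + e1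
    have s1 : (17 + 8 * (η * ε)) ^ q = u ^ 2 * (4 * a ^ p + b ^ p) ^ 2 := by
      rw [t1, ← pow_mul, mul_comm 2 q, pow_mul, r1]; ring
    have s2 : (17 - 8 * (η * ε)) ^ q = u ^ 2 * (4 * a ^ p - b ^ p) ^ 2 := by
      rw [t2, ← pow_mul, mul_comm 2 q, pow_mul, r2]; ring
    have vanish : (4 * a ^ p + b ^ p) ^ 2 = (4 * a ^ p - b ^ p) ^ 2 → False := by
      intro h
      rw [h, ← s2] at s1
      rcases c1 with c1 | c1 <;> rw [c1] at s1
      · rw [n1, n2] at s1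
        exact keyq q d0 s1
      · rw [n3, n4] at s1
        exact keyq q d0 s1.symm
    by_cases ha : a = 0
    · apply vanish
      rw [ha, zero_pow hp0]; ring
    by_cases hb : b = 0
    · apply vanish
      rw [hb, zero_pow hp0]; ring
    have e3 : (a ^ p) ^ 2 = 1 := sqp rfl a ha
    have e4 : (b ^ p) ^ 2 = 1 := sqp rfl b hb
    set α := a ^ p with hα
    set τ := b ^ p with hτ
    have s1' : (17 + 8 * (η * ε)) ^ q = u ^ 2 * (17 + 8 * (α * τ)) := by
      rw [s1]; linear_combination (16 * u ^ 2) * e3 + u ^ 2 * e4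
    have s2' : (17 - 8 * (η * ε)) ^ q = u ^ 2 * (17 - 8 * (α * τ)) := by
      rw [s2]; linear_combination (16 * u ^ 2) * e3 + u ^ 2 * e4
    have c2 : α * τ = 1 ∨ α * τ = -1 := by
      apply mul_self_eq_one_iff.1
      linear_combination τ ^ 2 * e3 + e4
    have hq1' : q - 1 + 1 = q := by omega
    have same : (5 ^ 2 : ZMod (2 * p + 1)) ^ q = u ^ 2 * 5 ^ 2 → (3 ^ 2 : ZMod (2 * p + 1)) ^ q = u ^ 2 * 3 ^ 2 → False := by
      intro a1 a2
      apply keyq (q - 1) d1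
      rw [← hq1', pow_succ] at a1 a2
      rw [mul_right_cancel₀ (pow_ne_zero 2 five_ne) a1, mul_right_cancel₀ (pow_ne_zero 2 three_ne) a2]
    have diff : (5 ^ 2 : ZMod (2 * p + 1)) ^ q = u ^ 2 * 3 ^ 2 → (3 ^ 2 : ZMod (2 * p + 1)) ^ q = u ^ 2 * 5 ^ 2 → False := by
      intro a1 a2
      apply keyr (q - 1) d1
      have a3 : (15 ^ 2 : ZMod (2 * p + 1)) ^ q = (16 ^ 2) ^ (q - 1) * 15 ^ 2 := by
        have : (15 ^ 2 : ZMod (2 * p + 1)) = 5 ^ 2 * 3 ^ 2 := by norm_num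
        rw [this, mul_pow, a1, a2]
        have h16 : (16 ^ 2 : ZMod (2 * p + 1)) ^ (q - 1) = u ^ 2 * u ^ 2 := by
          rw [hu2, ← mul_pow, ← sq]
        rw [h16]; ring
      rw [← hq1', pow_succ, hq1'] at a3
      exact mul_right_cancel₀ (pow_ne_zero 2 fifteen_ne) a3
    rcases c1 with c1 | c1 <;> rcases c2 with c2 | c2 <;> rw [c1, c2] at s1' s2'
    · rw [n1] at s1'; rw [n2] at s2'
      exact same s1' s2'
    · rw [n1, n3] at s1'; rw [n2, n4] at s2'
      exact diff s1' s2'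
    · rw [n3, n1] at s1'; rw [n4, n2] at s2'
      exact diff s2' s1'
    · rw [n3] at s1'; rw [n4] at s2'
      exact same s2' s1'

lemma cof_odd (n : ℕ) (hn : Odd n) (X Y : ℤ) (hX : Odd X) (hY : Odd Y) : Odd (cof n X Y) := by
  have h1 : ((X : ℤ) : ZMod 2) = (Y : ZMod 2) := by
    have h2 : ((2 : ℕ) : ℤ) ∣ Y - X := (hY.sub_odd hX).two_dvd
    exact (ZMod.intCast_eq_intCast_iff_dvd_sub X Y 2).2 h2
  have h2 := cof_cast_self (t := 2) n X Y h1
  have hY1 : ((Y : ℤ) : ZMod 2) = 1 := by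
    obtain ⟨j, rfl⟩ := hY
    push_cast
    have : (2 : ZMod 2) = 0 := by decide
    rw [this]; ring
  have hn1 : ((n : ℕ) : ZMod 2) = 1 := by
    obtain ⟨j, rfl⟩ := hn
    push_cast
    have : (2 : ZMod 2) = 0 := by decide
    rw [this]; ring
  rw [hY1, hn1, one_pow, mul_one] at h2
  rw [← Int.not_even_iff_odd]
  intro he
  have h3 : ((2 : ℕ) : ℤ) ∣ cof n X Y := he.two_dvd
  rw [← ZMod.intCast_zmod_eq_zero_iff_dvd] at h3
  rw [h3] at h2
  exact absurd h2 (by decide)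

/-- Integer part of the argument (`z ^ s + y ^ s` not divisible by `4`). -/
lemma levelS (p s : ℕ) (hp : Odd p) (hp3 : 3 ≤ p) (hs : Odd s) (x y z : ℤ) (hx : Even x) (hx0 : x ≠ 0)
    (hxs : IsCoprime x (s : ℤ)) (hy : Odd y) (hz : Odd z) (hyz : IsCoprime y z)
    (h4 : ¬ (4 : ℤ) ∣ z ^ s + y ^ s)
    (h : x ^ p + (y ^ s) ^ 2 = (z ^ s) ^ 2) :
    ∃ a b e f g k : ℤ, IsCoprime a b ∧ 4 * z ^ s = 4 * a ^ p + (2 * b) ^ p ∧
      4 * y ^ s = 4 * a ^ p - (2 * b) ^ p ∧ 4 * z = 4 * k ^ p + (2 * e) ^ p ∧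
      4 * y = 4 * k ^ p - (2 * e) ^ p ∧ cof s z y = f ^ p ∧ cof s z (-y) = g ^ p := by
  have hs0 : 0 < s := hs.pos
  obtain ⟨x', hx'⟩ := hx.exists_two_nsmul _
  have hx2 : x = 2 * x' := by rw [hx', nsmul_eq_mul]; norm_cast
  obtain ⟨u, hu⟩ : Even (z ^ s + y ^ s) := hz.pow.add_odd hy.pow
  obtain ⟨v, hv⟩ : Even (z ^ s - y ^ s) := hz.pow.sub_odd hy.pow
  have hu2 : z ^ s + y ^ s = 2 * u := by rw [hu]; ring
  have hv2 : z ^ s - y ^ s = 2 * v := by rw [hv]; ring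
  have huodd : Odd u := by
    rw [← Int.not_even_iff_odd]
    rintro ⟨w, hw⟩
    apply h4
    exact ⟨w, by rw [hu2, hw]; ring⟩
  have huv : u + v = z ^ s := by linarith
  have huv' : u - v = y ^ s := by linarith
  have hcop : IsCoprime u v := by
    apply isCoprime_of_prime_dvd
    · rintro ⟨h1, _⟩
      rw [h1] at huodd
      exact absurd huodd (by decide)
    · intro l hl h1 h2
      have h3 : l ∣ z ^ s := huv ▸ dvd_add h1 h2
      have h5 : l ∣ y ^ s := huv' ▸ dvd_sub h1 h2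
      exact hl.not_isUnit ((hyz.pow (m := s) (n := s)).isUnit_of_dvd' h5 h3)
  have hp2 : p = (p - 2) + 2 := by omega
  have hp1 : p - 1 = (p - 2) + 1 := by omega
  have h2pow : (2 : ℤ) ^ p = 4 * 2 ^ (p - 2) := by
    conv_lhs => rw [hp2, pow_add]
    ring
  have h2pow1 : (2 : ℤ) ^ (p - 1) = 2 * 2 ^ (p - 2) := by
    conv_lhs => rw [hp1, pow_add]
    ring
  have hprod : u * v = 2 ^ (p - 2) * x' ^ p := by
    have h5 : 4 * (u * v) = 4 * (2 ^ (p - 2) * x' ^ p) := by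
      have h6 : x ^ p = 4 * (2 ^ (p - 2) * x' ^ p) := by
        rw [hx2, mul_pow, h2pow]; ring
      rw [← h6]
      have h7 : x ^ p = (z ^ s + y ^ s) * (z ^ s - y ^ s) := by linear_combination h
      rw [h7, hu2, hv2]; ring
    linarith
  have hcu : IsCoprime ((2 : ℤ) ^ (p - 2)) u := by
    apply IsCoprime.pow_left
    obtain ⟨j, hj⟩ := huodd
    exact ⟨-j, 1, by rw [hj]; ring⟩
  obtain ⟨v', rfl⟩ : (2 : ℤ) ^ (p - 2) ∣ v := hcu.dvd_of_dvd_mul_left ⟨x' ^ p, hprod⟩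
  have hprod2 : u * v' = x' ^ p := by
    have h5 : (2 : ℤ) ^ (p - 2) * (u * v') = 2 ^ (p - 2) * x' ^ p := by rw [← hprod]; ring
    exact mul_left_cancel₀ (pow_ne_zero _ two_ne_zero) h5
  obtain ⟨a, b, ha, hb, hab⟩ := split_pow hcop.of_mul_right_right hp hprod2
  have hp0 : 0 < p := hp.pos
  have hcab : IsCoprime a b := by
    have h5 := hcop.of_mul_right_right
    rw [ha, hb] at h5
    exact (IsCoprime.pow_iff hp0 hp0).1 h5
  have hxab : x = 2 * (a * b) := by rw [hx2, hab]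
  have ha0 : a ≠ 0 := by
    rintro rfl
    exact hx0 (by rw [hxab]; ring)
  have hb0 : b ≠ 0 := by
    rintro rfl
    exact hx0 (by rw [hxab]; ring)
  have hsum : z ^ s + y ^ s = 2 * a ^ p := by rw [hu2, ha]
  have hdiff : z ^ s - y ^ s = 2 ^ (p - 1) * b ^ p := by rw [hv2, hb, h2pow1]; ring
  have cop2s : IsCoprime (2 : ℤ) (s : ℤ) := by
    rw [hxab] at hxs
    exact hxs.of_mul_left_left
  have copas : IsCoprime a (s : ℤ) := by
    rw [hxab] at hxs
    exact hxs.of_mul_left_right.of_mul_left_left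
  have copbs : IsCoprime b (s : ℤ) := by
    rw [hxab] at hxs
    exact hxs.of_mul_left_right.of_mul_left_right
  -- difference
  have hne1 : z ^ s - y ^ s ≠ 0 := by
    rw [hdiff]; exact mul_ne_zero (pow_ne_zero _ two_ne_zero) (pow_ne_zero _ hb0)
  have hd1 : (z - y) * cof s z y = 2 ^ (p - 1) * b ^ p := by rw [sub_mul_cof, hdiff]
  have hc1 : IsCoprime (z - y) (s : ℤ) := by
    have : IsCoprime ((2 : ℤ) ^ (p - 1) * b ^ p) (s : ℤ) :=
      (cop2s.pow_left).mul_left copbs.pow_left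
    rw [← hd1] at this
    exact this.of_mul_left_left
  have hc2 := coprime_sub_cof s z y hyz.symm hc1 hne1
  have hodd1 : Odd (cof s z y) := cof_odd s hs z y hz hy
  have hc3 : IsCoprime ((2 : ℤ) ^ (p - 1)) (cof s z y) := by
    apply IsCoprime.pow_left
    obtain ⟨j, hj⟩ := hodd1
    exact ⟨-j, 1, by rw [hj]; ring⟩
  obtain ⟨w, hw⟩ : (2 : ℤ) ^ (p - 1) ∣ z - y := hc3.dvd_of_dvd_mul_right ⟨b ^ p, hd1⟩
  have hd2 : w * cof s z y = b ^ p := by
    rw [hw] at hd1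
    have h5 : (2 : ℤ) ^ (p - 1) * (w * cof s z y) = 2 ^ (p - 1) * b ^ p := by rw [← hd1]; ring
    exact mul_left_cancel₀ (pow_ne_zero _ two_ne_zero) h5
  have hc4 : IsCoprime w (cof s z y) := by
    rw [hw] at hc2
    exact hc2.of_mul_left_right
  obtain ⟨e, f, he, hf, -⟩ := split_pow hc4 hp hd2
  -- sum
  have hne2 : z ^ s - (-y) ^ s ≠ 0 := by
    rw [hs.neg_pow, sub_neg_eq_add, hsum]
    exact mul_ne_zero two_ne_zero (pow_ne_zero _ ha0)
  have hd3 : (z - -y) * cof s z (-y) = 2 * a ^ p := by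
    rw [sub_mul_cof, hs.neg_pow, sub_neg_eq_add, hsum]
  have hc5 : IsCoprime (z - -y) (s : ℤ) := by
    have : IsCoprime ((2 : ℤ) * a ^ p) (s : ℤ) := cop2s.mul_left copas.pow_left
    rw [← hd3] at this
    exact this.of_mul_left_left
  have hc6 := coprime_sub_cof s z (-y) hyz.symm.neg_right hc5 hne2
  obtain ⟨K, hK⟩ : Even (z - -y) := by rw [sub_neg_eq_add]; exact hz.add_odd hy
  have hK2 : z - -y = 2 * K := by rw [hK]; ring
  have hd4 : K * cof s z (-y) = a ^ p := by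
    have : 2 * (K * cof s z (-y)) = 2 * a ^ p := by rw [← hd3, hK2]; ring
    exact mul_left_cancel₀ two_ne_zero this
  have hc7 : IsCoprime K (cof s z (-y)) := by
    rw [hK2] at hc6
    exact hc6.of_mul_left_right
  obtain ⟨k, g, hk, hg, -⟩ := split_pow hc7 hp hd4
  have E : (2 * e) ^ p = 2 * (z - y) := by
    rw [hw, he, mul_pow, h2pow, h2pow1]; ring
  have B' : (2 * b) ^ p = 2 * (z ^ s - y ^ s) := by
    rw [hdiff, mul_pow, h2pow, h2pow1]; ring
  have K' : 2 * k ^ p = z + y := by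
    rw [← hk, ← hK2]; ring
  refine ⟨a, b, e, f, g, k, hcab, ?_, ?_, ?_, ?_, hf, hg⟩
  · linear_combination 2 * hsum - B'
  · linear_combination 2 * hsum + B'
  · linear_combination -2 * K' - E
  · linear_combination -2 * K' + E

/-- The criterion for `x ^ p + y ^ (2 s) = z ^ (2 s)`. -/
theorem main_four (p s t : ℕ) (hp : Odd p) (hp3 : 3 ≤ p) (hs : Odd s) (ht : t.Prime) (ht2 : t ≠ 2)
    (haux : Aux 4 p s t)
    (x y z : ℤ) (hx : Even x) (hxs : IsCoprime x (s : ℤ)) (hxy : IsCoprime x y)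
    (h : x ^ p + (y ^ s) ^ 2 = (z ^ s) ^ 2) : False := by
  have hx0 : x ≠ 0 := by
    rintro rfl
    rw [isCoprime_zero_left] at hxs
    have hq1 : s = 1 := by
      have := Int.isUnit_iff.1 hxs
      omega
    subst hq1
    exact haux.1 1 (by simp)
  have hs0 : 0 < s := hs.pos
  have hp0 : 0 < p := hp.pos
  have hyodd : Odd y := by
    rw [← Int.not_even_iff_odd]
    intro hy
    exact Int.prime_two.not_isUnit (hxy.isUnit_of_dvd' hx.two_dvd hy.two_dvd)
  have hxz : IsCoprime y z := by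
    apply isCoprime_of_prime_dvd
    · rintro ⟨h1, _⟩
      rw [h1] at hyodd
      exact absurd hyodd (by decide)
    · intro l hl h1 h2
      have h3 : l ∣ x ^ p := by
        have h5 : x ^ p = (z ^ s) ^ 2 - (y ^ s) ^ 2 := by linear_combination h
        rw [h5]
        exact dvd_sub (dvd_pow (dvd_pow h2 hs0.ne') two_ne_zero)
          (dvd_pow (dvd_pow h1 hs0.ne') two_ne_zero)
      exact hl.not_isUnit (hxy.isUnit_of_dvd' (hl.dvd_of_dvd_pow h3) h1)
  have hzodd : Odd z := by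
    have h1 : Odd ((z ^ s) ^ 2) := by
      rw [← h]
      exact (Int.even_pow.2 ⟨hx, hp0.ne'⟩).add_odd (hyodd.pow.pow)
    have h2 := (Int.odd_pow' two_ne_zero).1 h1
    exact (Int.odd_pow' hs0.ne').1 h2
  -- choose the sign of y
  have hsign : ∃ y' : ℤ, (y' = y ∨ y' = -y) ∧ ¬ (4 : ℤ) ∣ z ^ s + y' ^ s := by
    by_cases h4 : (4 : ℤ) ∣ z ^ s + y ^ s
    · refine ⟨-y, Or.inr rfl, ?_⟩
      intro h5
      rw [hs.neg_pow] at h5
      have h6 : (4 : ℤ) ∣ 2 * z ^ s := by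
        have := dvd_add h4 h5
        have h7 : z ^ s + y ^ s + (z ^ s + -y ^ s) = 2 * z ^ s := by ring
        rwa [h7] at this
      have h7 : Odd (z ^ s) := hzodd.pow
      obtain ⟨j, hj⟩ := h7
      rw [hj] at h6
      omega
    · exact ⟨y, Or.inl rfl, h4⟩
  obtain ⟨y', hy', h4⟩ := hsign
  have hy'odd : Odd y' := by
    rcases hy' with rfl | rfl
    · exact hyodd
    · exact hyodd.neg
  have hyz' : IsCoprime y' z := by
    rcases hy' with rfl | rfl
    · exact hxz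
    · exact hxz.neg_left
  have h' : x ^ p + (y' ^ s) ^ 2 = (z ^ s) ^ 2 := by
    rcases hy' with rfl | rfl
    · exact h
    · rw [hs.neg_pow, neg_sq]; exact h
  have : Fact t.Prime := ⟨ht⟩
  obtain ⟨a, b, e, f, g, k, hab, h1, h2, h3, h5, hf, hg⟩ :=
    levelS p s hp hp3 hs x y' z hx hx0 hxs hy'odd hzodd hyz' h4 h'
  have two_ne : (2 : ZMod t) ≠ 0 := two_ne_zero' ht2
  have four_ne : (4 : ZMod t) ≠ 0 := by
    have : (4 : ZMod t) = 2 * 2 := by norm_num
    rw [this]; exact mul_ne_zero two_ne two_ne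
  have cast := fun (a b : ℤ) (h : a = b) => congrArg (Int.cast : ℤ → ZMod t) h
  refine local_key (M := 4) (t := t) ht2 (by exact_mod_cast four_ne) hp hs haux
    (a : ZMod t) ((2 * b : ℤ) : ZMod t) z y' ((2 * e : ℤ) : ZMod t) f g k
    ((cof s z y' : ℤ) : ZMod t) ((cof s z (-y') : ℤ) : ZMod t) ?_ ?_ ?_ ?_ ?_ ?_ ?_ ?_ ?_
  · rintro ⟨hA, hB⟩
    push_cast at hB
    have hB' : ((b : ℤ) : ZMod t) = 0 := (mul_eq_zero.1 hB).resolve_left two_ne
    rw [ZMod.intCast_zmod_eq_zero_iff_dvd] at hA hB'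
    have hu := hab.isUnit_of_dvd' hA hB'
    have h2 := ht.two_le
    have : ((t : ℕ) : ℤ) = 1 ∨ ((t : ℕ) : ℤ) = -1 := Int.isUnit_iff.1 hu
    omega
  · exact_mod_cast cast _ _ h1
  · exact_mod_cast cast _ _ h2
  · exact_mod_cast cast _ _ h3
  · exact_mod_cast cast _ _ h5
  · intro hCD
    exact cof_cast_self s z y' hCD
  · exact_mod_cast cast _ _ hf
  · intro hCD
    have h1 := cof_cast_self (t := t) s z (-y') (by push_cast; exact hCD)
    rw [h1, hCD]; push_cast; rfl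
  · exact_mod_cast cast _ _ hg

end Pool.Agent.H326R2
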