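import Mathlib
import Pool.Agent.H326R2.Gauss
import Pool.Agent.H326R2.Pyth
import Pool.Agent.H326R2.SFour

/-!
The integer part of the arguments over the Gaussian integers.
-/

namespace Pool.Agent.H326R2

lemma coprime_of_primes {a b : ℤ} (H : ∀ l : ℤ, Prime l → l ∣ a → ¬ l ∣ b) : IsCoprime a b := by
  apply isCoprime_of_prime_dvd _ H
  rintro ⟨h1, h2⟩
  exact H 2 Int.prime_two (h1 ▸ dvd_zero _) (h2 ▸ dvd_zero _)

lemma gauss_level (m n Z : ℤ) (r : ℕ) (hr : Odd r) (hmn : IsCoprime m n)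
    (hodd : Odd (m ^ 2 + n ^ 2)) (h : m ^ 2 + n ^ 2 = Z ^ r)
    (hm : IsCoprime m (r : ℤ)) (hn : IsCoprime n (r : ℤ)) :
    ∃ α β M N s t s' t' ε : ℤ, (ε = 1 ∨ ε = -1) ∧ (⟨m, n⟩ : GaussianInt) = ⟨α, β⟩ ^ r ∧
      m = α * M ∧ n = β * N ∧ IsCoprime α M ∧ IsCoprime β N ∧
      M = ε * r * β ^ (r - 1) + α * s ∧ N = r * α ^ (r - 1) + β * t ∧
      n = ε * β ^ r + α ^ 2 * t' ∧ m = α ^ r + β ^ 2 * s' := by
  obtain ⟨α, β, hαβ⟩ := gauss_split m n Z r hr hmn hodd h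
  obtain ⟨s', t, h1⟩ := gauss_pow_im α β r
  obtain ⟨k, hk⟩ := hr
  obtain ⟨s, t', ε, hε, h2⟩ := gauss_pow_re α β k
  rw [← hk, ← hαβ] at h2
  rw [← hαβ] at h1
  have hr1 : r - 1 = 2 * k := by omega
  have hm1 : m = α ^ r + β ^ 2 * s' := congrArg Zsqrtd.re h1
  have hn1 : n = r * α ^ (r - 1) * β + β ^ 2 * t := congrArg Zsqrtd.im h1
  have hm2 : m = ε * (2 * k + 1) * β ^ (2 * k) * α + α ^ 2 * s := congrArg Zsqrtd.re h2
  have hn2 : n = ε * β ^ r + α ^ 2 * t' := congrArg Zsqrtd.im h2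
  have hrc : (r : ℤ) = 2 * k + 1 := by rw [hk]; push_cast; ring
  set M := ε * r * β ^ (r - 1) + α * s with hM
  set N := r * α ^ (r - 1) + β * t with hN
  have hmM : m = α * M := by rw [hM, hm2, hr1, hrc]; ring
  have hnN : n = β * N := by rw [hN, hn1]; ring
  refine ⟨α, β, M, N, s, t, s', t', ε, hε, hαβ, hmM, hnN, ?_, ?_, rfl, rfl, ?_, hm1⟩
  · apply coprime_of_primes
    intro l hl h3 h4
    have h5 : l ∣ ε * r * β ^ (r - 1) := by
      have := dvd_sub h4 (Dvd.dvd.mul_right h3 s)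
      rwa [hM, add_sub_cancel_right] at this
    rcases hl.dvd_or_dvd h5 with h6 | h6
    · rcases hl.dvd_or_dvd h6 with h7 | h7
      · rcases hε with h8 | h8 <;> rw [h8] at h7
        · exact hl.not_isUnit (isUnit_of_dvd_one h7)
        · exact hl.not_isUnit (isUnit_of_dvd_one ((dvd_neg).1 h7))
      · exact hl.not_isUnit (hm.isUnit_of_dvd' (hmM ▸ Dvd.dvd.mul_right h3 M) h7)
    · have h7 : l ∣ β := hl.dvd_of_dvd_pow h6
      exact hl.not_isUnit (hmn.isUnit_of_dvd' (hmM ▸ Dvd.dvd.mul_right h3 M)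
        (hnN ▸ Dvd.dvd.mul_right h7 N))
  · apply coprime_of_primes
    intro l hl h3 h4
    have h5 : l ∣ (r : ℤ) * α ^ (r - 1) := by
      have := dvd_sub h4 (Dvd.dvd.mul_right h3 t)
      rwa [hN, add_sub_cancel_right] at this
    rcases hl.dvd_or_dvd h5 with h7 | h6
    · exact hl.not_isUnit (hn.isUnit_of_dvd' (hnN ▸ Dvd.dvd.mul_right h3 N) h7)
    · have h7 : l ∣ α := hl.dvd_of_dvd_pow h6
      exact hl.not_isUnit (hmn.isUnit_of_dvd' (hmM ▸ Dvd.dvd.mul_right h7 M)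
        (hnN ▸ Dvd.dvd.mul_right h3 N))
  · exact hn2

/-- `t` is an auxiliary modulus for `(p, r)` (second type): `r` is not a `p`-th power modulo `t`
and, in `(Z/t)[i]`, there are no nonzero `a, b` and no `A, B` modulo `t` with
`(2 a ^ p + b ^ p i) ^ r = 2 ^ r A ^ p + 2 ^ (r - 1) B ^ p i`. -/
def AuxG (p r t : ℕ) : Prop :=
  (∀ a : ZMod t, a ^ p ≠ (r : ZMod t)) ∧
  ∀ a b A B : ZMod t, a ≠ 0 → b ≠ 0 →
    (⟨2 * a ^ p, b ^ p⟩ : QuadraticAlgebra (ZMod t) (-1) 0) ^ r ≠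
      ⟨2 ^ r * A ^ p, 2 ^ (r - 1) * B ^ p⟩

/-- The criterion for `x ^ (2 p) + y ^ 2 = z ^ (2 r)`, `x` even. -/
theorem main_gauss (p r t : ℕ) (hp : Odd p) (hr : Odd r) (ht : t.Prime) (ht2 : t ≠ 2)
    (haux : AuxG p r t)
    (x y z : ℤ) (hx : Even x) (hxr : IsCoprime x (r : ℤ)) (hxy : IsCoprime x y)
    (h : (x ^ p) ^ 2 + y ^ 2 = (z ^ r) ^ 2) : False := by
  have hp0 : p ≠ 0 := hp.pos.ne'
  have hx0 : x ≠ 0 := by
    rintro rfl
    rw [isCoprime_zero_left] at hxr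
    have hq1 : r = 1 := by
      have := Int.isUnit_iff.1 hxr
      omega
    subst hq1
    exact haux.1 1 (by simp)
  have hyodd : Odd y := by
    rw [← Int.not_even_iff_odd]
    intro hy
    exact Int.prime_two.not_isUnit (hxy.isUnit_of_dvd' hx.two_dvd hy.two_dvd)
  obtain ⟨A, B, y', hy', hAodd, hAB, hxAB, hyq, hw, hcop⟩ :=
    param p 1 hp odd_one x y (z ^ r) hx hxy (by rw [pow_one]; exact h)
  have hA0 : A ≠ 0 := by
    rintro rfl
    apply hx0
    rw [hxAB]; ring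
  have hB0 : B ≠ 0 := by
    rintro rfl
    apply hx0
    rw [hxAB]; ring
  have hy'odd : Odd y' := by
    rcases hy' with rfl | rfl
    · exact hyodd
    · exact hyodd.neg
  set m := A ^ p with hm
  set n := 2 ^ (p - 1) * B ^ p with hn
  have hmodd : Odd m := hAodd.pow
  have hneven : Even n := by
    by_contra hno
    have hno' : Odd n := Int.not_even_iff_odd.1 hno
    have h1 : Even (y' ^ 1) := by
      rw [hyq]
      exact (hmodd.pow).sub_odd (hno'.pow)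
    rw [pow_one] at h1
    exact (Int.not_even_iff_odd.2 hy'odd) h1
  have hodd : Odd (m ^ 2 + n ^ 2) := hmodd.pow.add_even (Int.even_pow.2 ⟨hneven, two_ne_zero⟩)
  have hZ : m ^ 2 + n ^ 2 = ((z.natAbs : ℕ) : ℤ) ^ r := by
    rw [← hw, Int.natAbs_pow]; push_cast; rfl
  have copA : IsCoprime A (r : ℤ) := by
    rw [hxAB] at hxr
    exact hxr.of_mul_left_right.of_mul_left_left
  have copB : IsCoprime B (r : ℤ) := by
    rw [hxAB] at hxr
    exact hxr.of_mul_left_right.of_mul_left_right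
  have cop2 : IsCoprime (2 : ℤ) (r : ℤ) := by
    rw [hxAB] at hxr
    exact hxr.of_mul_left_left
  obtain ⟨α, β, M, N, s, t₁, s', t', ε, hε, hαβ, hmM, hnN, hcM, hcN, hM, hN, hn', hm'⟩ :=
    gauss_level m n _ r hr hcop hodd hZ copA.pow_left ((cop2.pow_left).mul_left copB.pow_left)
  -- parities
  have hαodd : Odd α := by
    have : Odd (α * M) := hmM ▸ hmodd
    exact (Int.odd_mul.1 this).1
  have hβeven : Even β := by
    by_contra hno
    have hno' : Odd β := Int.not_even_iff_odd.1 hno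
    -- N is then even, so (mod 2) r α^(r-1) + β t₁ even
    have hN2 : Even N := by
      have : Even (β * N) := hnN ▸ hneven
      rcases Int.even_mul.1 this with h1 | h1
      · exact absurd h1 hno
      · exact h1
    -- norm is odd: α^2 + β^2 even, contradiction
    have h1 : (⟨m, n⟩ : GaussianInt).norm = ((⟨α, β⟩ : GaussianInt).norm) ^ r := by
      rw [hαβ]; exact map_pow (Zsqrtd.normMonoidHom) _ r
    have h2 : (⟨m, n⟩ : GaussianInt).norm = m ^ 2 + n ^ 2 := by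
      rw [Zsqrtd.norm_def]; ring
    have h3 : (⟨α, β⟩ : GaussianInt).norm = α ^ 2 + β ^ 2 := by
      rw [Zsqrtd.norm_def]; ring
    rw [h2, h3] at h1
    have h4 : Even ((α ^ 2 + β ^ 2) ^ r) :=
      Int.even_pow.2 ⟨hαodd.pow.add_odd hno'.pow, hr.pos.ne'⟩
    rw [← h1] at h4
    exact (Int.not_even_iff_odd.2 hodd) h4
  have hNodd : Odd N := by
    rw [hN]
    exact ((by exact_mod_cast hr : Odd (r : ℤ)).mul hαodd.pow).add_even (hβeven.mul_right _)
  obtain ⟨a1, a2, ha1, ha2, ha⟩ := split_pow hcM hp hmM.symm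
  have hc3 : IsCoprime ((2 : ℤ) ^ (p - 1)) N := by
    apply IsCoprime.pow_left
    obtain ⟨j, hj⟩ := hNodd
    exact ⟨-j, 1, by rw [hj]; ring⟩
  obtain ⟨w, hw'⟩ : (2 : ℤ) ^ (p - 1) ∣ β := hc3.dvd_of_dvd_mul_right ⟨B ^ p, hnN.symm⟩
  have hwN : w * N = B ^ p := by
    have h5 : (2 : ℤ) ^ (p - 1) * (w * N) = 2 ^ (p - 1) * B ^ p := by
      rw [← mul_assoc, ← hw']; exact hnN.symm
    exact mul_left_cancel₀ (pow_ne_zero _ two_ne_zero) h5
  have hcw : IsCoprime w N := by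
    rw [hw'] at hcN
    exact hcN.of_mul_left_right
  obtain ⟨b1, b2, hb1, hb2, hb⟩ := split_pow hcw hp hwN
  -- reduction modulo t
  have : Fact t.Prime := ⟨ht⟩
  have two_ne : (2 : ZMod t) ≠ 0 := two_ne_zero' ht2
  have cast := fun (a b : ℤ) (h : a = b) => congrArg (Int.cast : ℤ → ZMod t) h
  have hp1 : p - 1 + 1 = p := by have := hp.pos; omega
  have hr1 : r - 1 + 1 = r := by have := hr.pos; omega
  have h2p : (2 : ℤ) ^ p = 2 * 2 ^ (p - 1) := by rw [← pow_succ', hp1]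
  have e2β : 2 * β = (2 * b1) ^ p := by rw [hw', hb1, mul_pow, h2p]; ring
  have e2n : 2 * n = (2 * B) ^ p := by rw [hn, mul_pow, h2p]; ring
  have f2β : (2 : ZMod t) * β = (2 * b1) ^ p := by exact_mod_cast cast _ _ e2β
  have f2n : (2 : ZMod t) * n = (2 * B) ^ p := by exact_mod_cast cast _ _ e2n
  have fα : (α : ZMod t) = (a1 : ZMod t) ^ p := by exact_mod_cast cast _ _ ha1
  have fm : (m : ZMod t) = (A : ZMod t) ^ p := by exact_mod_cast cast _ _ hm
  have hAB' : ¬ ((A : ZMod t) = 0 ∧ (B : ZMod t) = 0) := by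
    rintro ⟨hA, hB'⟩
    rw [ZMod.intCast_zmod_eq_zero_iff_dvd] at hA hB'
    have hu := hAB.isUnit_of_dvd' hA hB'
    have h2 := ht.two_le
    have : ((t : ℕ) : ℤ) = 1 ∨ ((t : ℕ) : ℤ) = -1 := Int.isUnit_iff.1 hu
    omega
  have fm' : (m : ZMod t) = (α : ZMod t) ^ r + (β : ZMod t) ^ 2 * s' := by
    exact_mod_cast cast _ _ hm'
  have fn' : (n : ZMod t) = ε * (β : ZMod t) ^ r + (α : ZMod t) ^ 2 * t' := by
    exact_mod_cast cast _ _ hn'
  have fM : ((a2 : ℤ) : ZMod t) ^ p = ε * r * (β : ZMod t) ^ (r - 1) + α * s := by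
    have := cast _ _ (ha2.symm.trans hM)
    exact_mod_cast this
  have fN : ((b2 : ℤ) : ZMod t) ^ p = r * (α : ZMod t) ^ (r - 1) + β * t₁ := by
    have := cast _ _ (hb2.symm.trans hN)
    exact_mod_cast this
  have fε : (ε : ZMod t) ^ 2 = 1 := by
    rcases hε with h1 | h1 <;> rw [h1] <;> simp
  obtain ⟨aux1, aux2⟩ := haux
  by_cases hb0 : (b1 : ZMod t) = 0
  · -- β ≡ 0
    have hβ0 : (β : ZMod t) = 0 := by
      rw [hb0, mul_zero, zero_pow hp0] at f2β
      exact (mul_eq_zero.1 f2β).resolve_left two_ne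
    have hα0 : (a1 : ZMod t) ≠ 0 := by
      intro ha0
      rw [ha0, zero_pow hp0] at fα
      apply hAB'
      constructor
      · rw [fα, hβ0, zero_pow hr.pos.ne'] at fm'
        rw [fm'] at fm
        have : (A : ZMod t) ^ p = 0 := by rw [← fm]; ring
        exact eq_zero_of_pow_eq_zero this
      · rw [fα, hβ0, zero_pow hr.pos.ne'] at fn'
        rw [fn'] at f2n
        have : (2 * (B : ZMod t)) ^ p = 0 := by rw [← f2n]; ring
        exact (mul_eq_zero.1 (eq_zero_of_pow_eq_zero this)).resolve_left two_ne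
    rw [hβ0, zero_mul, add_zero, fα] at fN
    apply aux1 ((b2 : ZMod t) / (a1 : ZMod t) ^ (r - 1))
    rw [div_pow, fN, ← pow_mul, ← pow_mul, mul_comm p (r - 1), mul_div_cancel_right₀]
    exact pow_ne_zero _ hα0
  · have h2b0 : 2 * (b1 : ZMod t) ≠ 0 := mul_ne_zero two_ne hb0
    by_cases ha0 : (a1 : ZMod t) = 0
    · rw [ha0, zero_pow hp0] at fα
      rw [fα, zero_mul, add_zero] at fM
      rw [fα] at fn'
      have fn2 : (n : ZMod t) = ε * (β : ZMod t) ^ r := by rw [fn']; ring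
      -- 2^r n = ε (2 β)^r
      have g1 : 2 ^ (r - 1) * (2 * (B : ZMod t)) ^ p = ε * ((2 * (b1 : ZMod t)) ^ r) ^ p := by
        rw [← f2n, fn2, ← pow_mul (2 * (b1 : ZMod t)), mul_comm r p, pow_mul, ← f2β, mul_pow]
        have : (2 : ZMod t) ^ r = 2 ^ (r - 1) * 2 := by rw [← pow_succ, hr1]
        rw [this]; ring
      have g2 : 2 ^ (r - 1) * (a2 : ZMod t) ^ p = ε * r * ((2 * (b1 : ZMod t)) ^ (r - 1)) ^ p := by
        rw [fM, ← pow_mul (2 * (b1 : ZMod t)), mul_comm (r - 1) p, pow_mul, ← f2β, mul_pow]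
        ring
      have hB0' : (2 * (B : ZMod t)) ^ p ≠ 0 := by
        intro h0
        rw [h0, mul_zero] at g1
        have h3 : ((2 * (b1 : ZMod t)) ^ r) ^ p ≠ 0 := pow_ne_zero _ (pow_ne_zero _ h2b0)
        have h4 : (ε : ZMod t) ≠ 0 := by
          intro h5
          rw [h5] at fε
          simp at fε
        exact (mul_ne_zero h4 h3) g1.symm
      apply aux1 ((2 * (b1 : ZMod t)) * a2 / (2 * (B : ZMod t)))
      rw [div_pow, div_eq_iff hB0', mul_pow]
      -- (2 b1)^p * a2^p = r * (2B)^p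
      have h2r : (2 : ZMod t) ^ (r - 1) ≠ 0 := pow_ne_zero _ two_ne
      apply mul_left_cancel₀ h2r
      have h3 : ((2 * (b1 : ZMod t)) ^ r) ^ p = ((2 * (b1 : ZMod t)) ^ (r - 1)) ^ p * (2 * (b1 : ZMod t)) ^ p := by
        rw [← mul_pow, ← pow_succ, hr1]
      calc (2 : ZMod t) ^ (r - 1) * ((2 * (b1 : ZMod t)) ^ p * (a2 : ZMod t) ^ p)
          = (2 * (b1 : ZMod t)) ^ p * (2 ^ (r - 1) * (a2 : ZMod t) ^ p) := by ring
        _ = r * (ε * (((2 * (b1 : ZMod t)) ^ (r - 1)) ^ p * (2 * (b1 : ZMod t)) ^ p)) := by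
            rw [g2]; ring
        _ = 2 ^ (r - 1) * (r * (2 * (B : ZMod t)) ^ p) := by rw [← h3, ← g1]; ring
    · apply aux2 (a1 : ZMod t) (2 * (b1 : ZMod t)) (A : ZMod t) (2 * (B : ZMod t)) ha0 h2b0
      have h1 := gauss_cast_pow t (⟨2 * α, 2 * β⟩ : GaussianInt) r
      have h2 : (⟨2 * α, 2 * β⟩ : GaussianInt) ^ r = ⟨2 ^ r * m, 2 ^ r * n⟩ := by
        have h3 : (⟨2 * α, 2 * β⟩ : GaussianInt) = ⟨2, 0⟩ * ⟨α, β⟩ := by
          rw [gauss_mul]; ext <;> simp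
        have h4 : (⟨2, 0⟩ : GaussianInt) ^ r = ⟨2 ^ r, 0⟩ := by
          have h5 : (⟨2, 0⟩ : GaussianInt) = ((2 : ℤ) : GaussianInt) := rfl
          rw [h5, ← Int.cast_pow]; rfl
        rw [h3, mul_pow, ← hαβ, h4, gauss_mul]
        ext <;> simp
      rw [h2] at h1
      simp only at h1
      push_cast at h1
      rw [fα, f2β, fm] at h1
      rw [h1]
      have h2r : (2 : ZMod t) ^ r = 2 ^ (r - 1) * 2 := by rw [← pow_succ, hr1]
      ext
      · rfl
      · simp only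
        rw [h2r, mul_assoc, f2n]

end Pool.Agent.H326R2
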