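import Mathlib
import Pool.Agent.H326R2.Pyth

/-!
First theorem: `x ^ (2 p) + y ^ (2 q) = w ^ 2`, `x` even, `gcd (x, q) = 1`,
`p` a Sophie Germain prime.
-/

namespace Pool.Agent.H326R2

lemma coprime_of_odd {a : ℤ} (h : Odd a) : IsCoprime a 2 := by
  obtain ⟨j, hj⟩ := h
  exact ⟨1, -j, by rw [hj]; ring⟩

/-- Integer part of the argument. -/
lemma levelC (p q : ℕ) (hp : Odd p) (hq : Odd q) (x y w : ℤ) (hx : Even x)
    (hxq : IsCoprime x (q : ℤ))
    (hxy : IsCoprime x y) (hx0 : x ≠ 0) (h : (x ^ p) ^ 2 + (y ^ q) ^ 2 = w ^ 2) :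
    ∃ A B C D e f g k : ℤ, IsCoprime A B ∧ C ^ q = A ^ p + 2 ^ (p - 1) * B ^ p ∧
      D ^ q = A ^ p - 2 ^ (p - 1) * B ^ p ∧ C - D = e ^ p ∧ cof q C D = f ^ p ∧
      C + D = 2 * k ^ p ∧ cof q C (-D) = g ^ p := by
  obtain ⟨A, B, y', hy', hAodd, hAB, hxAB, hyq, -, hcop⟩ := param p q hp hq x y w hx hxy h
  have hp0 : 0 < p := hp.pos
  have hq0 : 0 < q := hq.pos
  set m := A ^ p with hm
  set n := 2 ^ (p - 1) * B ^ p with hn
  have h2n : 2 * n = (2 * B) ^ p := by
    rw [hn, mul_pow, ← mul_assoc, ← pow_succ']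
    congr 2
    omega
  have hmodd : Odd m := hAodd.pow
  have hneven : Even n := by
    by_contra hno
    have hno' : Odd n := Int.not_even_iff_odd.1 hno
    -- then p = 1 and B odd, impossible is not needed; use parity of y
    have : Even (y' ^ q) := by
      rw [hyq]
      exact (hmodd.pow).sub_odd (hno'.pow)
    have h2 : Even y' := by
      rw [Int.even_pow] at this
      exact this.1
    have h3 : Even y := by
      rcases hy' with rfl | rfl
      · exact h2
      · simpa using h2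
    exact Int.prime_two.not_isUnit (hxy.isUnit_of_dvd' hx.two_dvd h3.two_dvd)
  have hodd1 : Odd (m + n) := hmodd.add_even hneven
  have hodd2 : Odd (m - n) := hmodd.sub_even hneven
  have hcop1 : IsCoprime (m + n) (m - n) := by
    apply isCoprime_of_prime_dvd
    · rintro ⟨h1, _⟩
      rw [h1] at hodd1
      exact absurd hodd1 (by decide)
    · intro l hl h1 h2
      have h3 : l ∣ 2 * m := by
        have := dvd_add h1 h2
        have h4 : m + n + (m - n) = 2 * m := by ring
        rwa [h4] at this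
      have h5 : l ∣ 2 * n := by
        have := dvd_sub h1 h2
        have h4 : m + n - (m - n) = 2 * n := by ring
        rwa [h4] at this
      have hl2 : ¬ l ∣ 2 := by
        intro hl2
        exact hl.not_isUnit ((coprime_of_odd hodd1).isUnit_of_dvd' h1 hl2)
      have h6 := (hl.dvd_or_dvd h3).resolve_left hl2
      have h7 := (hl.dvd_or_dvd h5).resolve_left hl2
      exact hl.not_isUnit (hcop.isUnit_of_dvd' h6 h7)
  have hprod : (m + n) * (m - n) = y' ^ q := by rw [hyq]; ring
  obtain ⟨C, D, hC, hD, hCD⟩ := split_pow hcop1 hq hprod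
  have hCDcop : IsCoprime C D := by
    rw [hC, hD] at hcop1
    exact (IsCoprime.pow_iff hq0 hq0).1 hcop1
  have hB0 : B ≠ 0 := by
    rintro rfl
    apply hx0
    rw [hxAB]; ring
  have hA0 : A ≠ 0 := by
    rintro rfl
    apply hx0
    rw [hxAB]; ring
  have h2B : IsCoprime (2 * B) (q : ℤ) := by
    rw [hxAB] at hxq
    have : (2 : ℤ) * (A * B) = (2 * B) * A := by ring
    rw [this] at hxq
    exact hxq.of_mul_left_left
  have h2A : IsCoprime (2 * A) (q : ℤ) := by
    rw [hxAB] at hxq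
    have : (2 : ℤ) * (A * B) = (2 * A) * B := by ring
    rw [this] at hxq
    exact hxq.of_mul_left_left
  -- the difference
  have hdiff : C ^ q - D ^ q = (2 * B) ^ p := by
    rw [← hC, ← hD, ← h2n]; ring
  have hdq : (C - D) * cof q C D = (2 * B) ^ p := by rw [sub_mul_cof, hdiff]
  have hne1 : C ^ q - D ^ q ≠ 0 := by
    rw [hdiff]; exact pow_ne_zero _ (mul_ne_zero two_ne_zero hB0)
  have hc1 : IsCoprime (C - D) (q : ℤ) := by
    have := (h2B.pow_left : IsCoprime ((2 * B) ^ p) (q : ℤ))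
    rw [← hdq] at this
    exact this.of_mul_left_left
  have hc2 := coprime_sub_cof q C D hCDcop hc1 hne1
  obtain ⟨e, f, he, hf, -⟩ := split_pow hc2 hp hdq
  -- the sum
  have hsum : C ^ q + D ^ q = 2 * A ^ p := by
    rw [← hC, ← hD, hm]; ring
  have hsq : (C - -D) * cof q C (-D) = 2 * A ^ p := by
    rw [sub_mul_cof, hq.neg_pow, sub_neg_eq_add, hsum]
  have hne2 : C ^ q - (-D) ^ q ≠ 0 := by
    rw [hq.neg_pow, sub_neg_eq_add, hsum]
    exact mul_ne_zero two_ne_zero (pow_ne_zero _ hA0)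
  have hc3 : IsCoprime (C - -D) (q : ℤ) := by
    have h3 : IsCoprime (2 * A ^ p) (q : ℤ) := by
      have h4 : IsCoprime (2 : ℤ) (q : ℤ) := h2A.of_mul_left_left
      have h5 : IsCoprime (A ^ p) (q : ℤ) := (h2A.of_mul_left_right).pow_left
      exact h4.mul_left h5
    rw [← hsq] at h3
    exact h3.of_mul_left_left
  have hc4 := coprime_sub_cof q C (-D) hCDcop.neg_right hc3 hne2
  have hCodd : Odd C := by
    have : Odd (C ^ q) := by rw [← hC]; exact hodd1
    exact (Int.odd_pow' hq0.ne').1 this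
  have hDodd : Odd D := by
    have : Odd (D ^ q) := by rw [← hD]; exact hodd2
    exact (Int.odd_pow' hq0.ne').1 this
  obtain ⟨K, hK⟩ : Even (C - -D) := by rw [sub_neg_eq_add]; exact hCodd.add_odd hDodd
  have hK2 : C - -D = 2 * K := by rw [hK]; ring
  have hKp : K * cof q C (-D) = A ^ p := by
    have : 2 * (K * cof q C (-D)) = 2 * A ^ p := by rw [← hsq, hK2]; ring
    exact mul_left_cancel₀ two_ne_zero this
  have hc5 : IsCoprime K (cof q C (-D)) := by
    rw [hK2] at hc4
    exact hc4.of_mul_left_right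
  obtain ⟨k, g, hk, hg, -⟩ := split_pow hc5 hp hKp
  refine ⟨A, B, C, D, e, f, g, k, hAB, hC.symm, hD.symm, he, hf, ?_, hg⟩
  rw [← hk, ← hK2]; ring

end Pool.Agent.H326R2
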