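import Mathlib
import Pool.Agent.H326R2.TOne
import Pool.Agent.H326R2.Local

namespace Pool.Agent.H326R2

/-- The criterion. -/
theorem main_one (p q t : ℕ) (hp : Odd p) (hq : Odd q) (ht : t.Prime) (ht2 : t ≠ 2)
    (haux : Aux 2 p q t)
    (x y w : ℤ) (hx : Even x) (hxq : IsCoprime x (q : ℤ)) (hxy : IsCoprime x y)
    (h : (x ^ p) ^ 2 + (y ^ q) ^ 2 = w ^ 2) : False := by
  have hx0 : x ≠ 0 := by
    rintro rfl
    rw [isCoprime_zero_left] at hxq
    have hq1 : q = 1 := by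
      have := Int.isUnit_iff.1 hxq
      omega
    subst hq1
    exact haux.1 1 (by simp)
  have : Fact t.Prime := ⟨ht⟩
  obtain ⟨A, B, C, D, e, f, g, k, hAB, hC, hD, he, hf, hk, hg⟩ :=
    levelC p q hp hq x y w hx hxq hxy hx0 h
  have hp1 : p - 1 + 1 = p := by have := hp.pos; omega
  have two_ne : (2 : ZMod t) ≠ 0 := two_ne_zero' ht2
  have h2p : (2 : ℤ) ^ p = 2 * 2 ^ (p - 1) := by rw [← pow_succ', hp1]
  have cast := fun (a b : ℤ) (h : a = b) => congrArg (Int.cast : ℤ → ZMod t) h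
  refine local_key (M := 2) (t := t) ht2 (by exact_mod_cast two_ne) hp hq haux
    (A : ZMod t) ((2 * B : ℤ) : ZMod t) C D e f g k ((cof q C D : ℤ) : ZMod t)
    ((cof q C (-D) : ℤ) : ZMod t) ?_ ?_ ?_ ?_ ?_ ?_ ?_ ?_ ?_
  · rintro ⟨hA, hB⟩
    push_cast at hB
    have hB' : ((B : ℤ) : ZMod t) = 0 := (mul_eq_zero.1 hB).resolve_left two_ne
    rw [ZMod.intCast_zmod_eq_zero_iff_dvd] at hA hB'
    have hu := hAB.isUnit_of_dvd' hA hB'
    have h2 := ht.two_le
    have : ((t : ℕ) : ℤ) = 1 ∨ ((t : ℕ) : ℤ) = -1 := Int.isUnit_iff.1 hu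
    omega
  · have : (2 : ℤ) * C ^ q = 2 * A ^ p + (2 * B) ^ p := by
      rw [hC, mul_pow, h2p]; ring
    exact_mod_cast cast _ _ this
  · have : (2 : ℤ) * D ^ q = 2 * A ^ p - (2 * B) ^ p := by
      rw [hD, mul_pow, h2p]; ring
    exact_mod_cast cast _ _ this
  · have : (2 : ℤ) * C = 2 * k ^ p + e ^ p := by linear_combination he + hk
    exact_mod_cast cast _ _ this
  · have : (2 : ℤ) * D = 2 * k ^ p - e ^ p := by linear_combination hk - he
    exact_mod_cast cast _ _ this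
  · intro hCD
    exact cof_cast_self q C D hCD
  · exact_mod_cast cast _ _ hf
  · intro hCD
    have h1 := cof_cast_self (t := t) q C (-D) (by push_cast; exact hCD)
    rw [h1, hCD]; push_cast; rfl
  · exact_mod_cast cast _ _ hg

end Pool.Agent.H326R2
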