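import Mathlib
import Pool.Agent.H326R2.Table

/-!
A table of auxiliary primes: entries `(p, t, P, Q)` where `P` lists the nonzero `p`-th powers
modulo the prime `t`, and `t` is auxiliary for `(p, q)` for every `q` in `Q`.
-/

namespace Pool.Agent.H326R2

def tabU : List (ℕ × ℕ × List ℕ × List ℕ) := [
  (5, 11, [1, 10], [7, 13, 17, 19, 29, 37, 47, 53, 59, 73, 79, 83, 97]),
  (5, 31, [1, 5, 6, 25, 26, 30], [23, 43, 89]),
  (5, 41, [1, 3, 9, 14, 27, 32, 38, 40], [67]),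
  (7, 29, [1, 12, 17, 28], [5, 11, 13, 19, 23, 31, 37, 47, 53, 61, 67, 73, 79, 83, 89, 97]),
  (7, 43, [1, 6, 7, 36, 37, 42], [17, 41, 59]),
  (11, 23, [1, 22], [5, 7, 13, 17, 19, 29, 31, 37, 41, 43, 53, 59, 61, 71, 73, 79, 83, 97]),
  (11, 67, [1, 29, 30, 37, 38, 66], [47]),
  (13, 53, [1, 23, 30, 52], [5, 7, 11, 17, 19, 29, 31, 37, 41, 43, 47, 59, 61, 67, 71, 73, 89, 97]),
  (13, 79, [1, 23, 24, 55, 56, 78], [83]),
  (13, 131, [1, 42, 53, 58, 61, 70, 73, 78, 89, 130], [23]),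
  (17, 103, [1, 46, 47, 56, 57, 102], [5, 7, 11, 13, 19, 23, 29, 31, 37, 41, 43, 59, 61, 67, 71, 73, 79, 83, 89, 97]),
  (17, 137, [1, 10, 37, 41, 96, 100, 127, 136], [47, 53]),
  (19, 191, [1, 7, 39, 49, 82, 109, 142, 152, 184, 190], [5, 11, 13, 17, 23, 29, 31, 37, 41, 43, 47, 53, 59, 61, 67, 71, 73, 79, 83, 89, 97]),
  (19, 229, [1, 18, 89, 94, 95, 107, 122, 134, 135, 140, 211, 228], [7]),
  (23, 47, [1, 46], [5, 7, 11, 13, 17, 19, 29, 31, 37, 41, 43, 53, 59, 61, 67, 71, 73, 79, 83, 89, 97]),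
  (29, 59, [1, 58], [5, 7, 11, 13, 17, 19, 23, 31, 37, 41, 43, 47, 53, 61, 67, 71, 73, 79, 83, 89, 97]),
  (31, 311, [1, 6, 36, 52, 95, 216, 259, 275, 305, 310], [5, 7, 11, 13, 17, 19, 23, 29, 37, 41, 43, 47, 53, 59, 61, 67, 71, 73, 79, 83, 89, 97]),
  (37, 149, [1, 44, 105, 148], [5, 7, 11, 13, 17, 19, 23, 29, 31, 41, 43, 47, 53, 59, 61, 67, 71, 73, 79, 83, 89, 97]),
  (41, 83, [1, 82], [5, 7, 11, 13, 17, 19, 23, 29, 31, 37, 43, 47, 53, 59, 61, 67, 71, 73, 79, 89, 97]),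
  (43, 173, [1, 80, 93, 172], [5, 7, 11, 13, 17, 19, 23, 29, 31, 37, 41, 47, 53, 59, 61, 67, 71, 73, 79, 83, 89, 97]),
  (47, 283, [1, 44, 45, 238, 239, 282], [5, 7, 11, 13, 17, 19, 23, 29, 31, 37, 41, 43, 53, 59, 61, 67, 71, 73, 79, 83, 89, 97]),
  (53, 107, [1, 106], [5, 7, 11, 13, 17, 19, 23, 29, 31, 37, 41, 43, 47, 59, 61, 67, 71, 73, 79, 83, 89, 97]),
  (59, 709, [1, 91, 96, 187, 227, 228, 481, 482, 522, 613, 618, 708], [5, 7, 11, 13, 17, 19, 23, 29, 31, 37, 41, 43, 47, 53, 61, 67, 71, 73, 79, 83, 89, 97]),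
  (61, 367, [1, 83, 84, 283, 284, 366], [5, 7, 11, 13, 17, 19, 23, 29, 31, 37, 41, 43, 47, 53, 59, 67, 71, 73, 79, 89, 97]),
  (61, 733, [1, 113, 240, 307, 308, 353, 380, 425, 426, 493, 620, 732], [83]),
  (67, 269, [1, 82, 187, 268], [5, 7, 11, 13, 17, 19, 23, 29, 31, 37, 41, 43, 47, 53, 59, 61, 71, 73, 79, 83, 89, 97]),
  (71, 569, [1, 76, 86, 277, 292, 483, 493, 568], [5, 7, 11, 13, 17, 19, 23, 29, 31, 37, 41, 43, 47, 53, 59, 61, 67, 73, 79, 83, 89, 97]),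
  (73, 293, [1, 138, 155, 292], [5, 7, 11, 13, 17, 19, 23, 29, 31, 37, 41, 43, 47, 53, 59, 61, 67, 71, 79, 83, 89, 97]),
  (79, 317, [1, 114, 203, 316], [5, 7, 11, 13, 17, 19, 23, 29, 31, 37, 41, 43, 47, 53, 59, 61, 67, 71, 73, 83, 89, 97]),
  (83, 167, [1, 166], [5, 7, 11, 13, 17, 19, 23, 29, 31, 37, 41, 43, 47, 53, 59, 61, 67, 71, 73, 79, 89, 97]),
  (89, 179, [1, 178], [5, 7, 11, 13, 17, 19, 23, 29, 31, 37, 41, 43, 47, 53, 59, 61, 67, 71, 73, 79, 83, 97]),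
  (97, 389, [1, 115, 274, 388], [5, 7, 11, 13, 17, 19, 23, 29, 31, 37, 41, 43, 47, 53, 59, 61, 67, 71, 73, 79, 83, 89])]

set_option maxRecDepth 1000000 in
lemma tabU_ok : tabU.all (chkEntry chkU) = true := by decide +kernel

set_option maxRecDepth 1000000 in
lemma tabU_cov : cov tabU [(5, 11), (5, 31), (5, 41), (5, 61), (5, 71), (7, 29), (7, 43), (7, 71), (11, 23), (11, 67), (11, 89), (13, 53), (13, 79), (23, 47), (29, 59), (41, 83)] = true := by decide +kernel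

end Pool.Agent.H326R2
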