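import Mathlib
import Pool.Agent.H326R2.GaussLevel
import Pool.Agent.H326R2.Check

/-!
The equation `x ^ (2 s) + y ^ (2 s) = z ^ p`, and the verification of the auxiliary conditions
over the Gaussian integers.
-/

namespace Pool.Agent.H326R2

/-- `t` is an auxiliary modulus for `(s, p)` (third type): `p` is not an `s`-th power modulo `t`
and, in `(Z/t)[i]`, there are no nonzero `a, b` and no `A, B` modulo `t` with
`(a ^ s + b ^ s i) ^ p = A ^ s + B ^ s i`. -/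
def AuxU (s p t : ℕ) : Prop :=
  (∀ a : ZMod t, a ^ s ≠ (p : ZMod t)) ∧
  ∀ a b A B : ZMod t, a ≠ 0 → b ≠ 0 →
    (⟨a ^ s, b ^ s⟩ : QuadraticAlgebra (ZMod t) (-1) 0) ^ p ≠ ⟨A ^ s, B ^ s⟩

/-- The criterion for `x ^ (2 s) + y ^ (2 s) = z ^ p`. -/
theorem main_u (s p t : ℕ) (hs : Odd s) (hp : Odd p) (ht : t.Prime)
    (haux : AuxU s p t)
    (x y z : ℤ) (hxp : IsCoprime x (p : ℤ)) (hyp : IsCoprime y (p : ℤ)) (hxy : IsCoprime x y)
    (h : (x ^ s) ^ 2 + (y ^ s) ^ 2 = z ^ p) : False := by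
  have hs0 : s ≠ 0 := hs.pos.ne'
  have hp1 : p ≠ 1 := by
    rintro rfl
    exact haux.1 1 (by simp)
  have hp3 : 2 ≤ p := by have := hp.pos; omega
  have hcop : IsCoprime (x ^ s) (y ^ s) := hxy.pow
  have hodd : Odd ((x ^ s) ^ 2 + (y ^ s) ^ 2) := by
    rcases Int.even_or_odd x with hx | hx <;> rcases Int.even_or_odd y with hy | hy
    · exact absurd (hxy.isUnit_of_dvd' hx.two_dvd hy.two_dvd) Int.prime_two.not_isUnit
    · exact (Int.even_pow.2 ⟨Int.even_pow.2 ⟨hx, hs0⟩, two_ne_zero⟩).add_odd hy.pow.pow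
    · exact (hx.pow.pow).add_even (Int.even_pow.2 ⟨Int.even_pow.2 ⟨hy, hs0⟩, two_ne_zero⟩)
    · exfalso
      have h1 : Odd (x ^ s) := hx.pow
      have h2 : Odd (y ^ s) := hy.pow
      have h3 : Even (z ^ p) := by
        rw [← h]; exact h1.pow.add_odd h2.pow
      have h4 : Even z := (Int.even_pow.1 h3).1
      obtain ⟨w, hw⟩ := h4
      have h5 : (4 : ℤ) ∣ z ^ p := by
        have h6 : z ^ 2 ∣ z ^ p := pow_dvd_pow z hp3
        have h7 : (4 : ℤ) ∣ z ^ 2 := ⟨w ^ 2, by rw [hw]; ring⟩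
        exact h7.trans h6
      rw [← h] at h5
      obtain ⟨a, ha⟩ := h1
      obtain ⟨b, hb⟩ := h2
      rw [ha, hb] at h5
      have h6 : (2 * a + 1) ^ 2 + (2 * b + 1) ^ 2 = 4 * (a ^ 2 + a + b ^ 2 + b) + 2 := by ring
      rw [h6] at h5
      omega
  obtain ⟨α, β, M, N, s₁, t₁, s', t', ε, hε, hαβ, hmM, hnN, hcM, hcN, hM, hN, hn', hm'⟩ :=
    gauss_level (x ^ s) (y ^ s) z p hp hcop hodd h hxp.pow_left hyp.pow_left
  obtain ⟨a1, a2, ha1, ha2, ha⟩ := split_pow hcM hs hmM.symm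
  obtain ⟨b1, b2, hb1, hb2, hb⟩ := split_pow hcN hs hnN.symm
  have : Fact t.Prime := ⟨ht⟩
  have cast := fun (a b : ℤ) (h : a = b) => congrArg (Int.cast : ℤ → ZMod t) h
  have fα : (α : ZMod t) = (a1 : ZMod t) ^ s := by exact_mod_cast cast _ _ ha1
  have fβ : (β : ZMod t) = (b1 : ZMod t) ^ s := by exact_mod_cast cast _ _ hb1
  have fm' : (x : ZMod t) ^ s = (α : ZMod t) ^ p + (β : ZMod t) ^ 2 * s' := by
    exact_mod_cast cast _ _ hm'
  have fn' : (y : ZMod t) ^ s = ε * (β : ZMod t) ^ p + (α : ZMod t) ^ 2 * t' := by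
    exact_mod_cast cast _ _ hn'
  have fM : ((a2 : ℤ) : ZMod t) ^ s = ε * p * (β : ZMod t) ^ (p - 1) + α * s₁ := by
    have := cast _ _ (ha2.symm.trans hM)
    exact_mod_cast this
  have fN : ((b2 : ℤ) : ZMod t) ^ s = p * (α : ZMod t) ^ (p - 1) + β * t₁ := by
    have := cast _ _ (hb2.symm.trans hN)
    exact_mod_cast this
  have hxy' : ¬ ((x : ZMod t) = 0 ∧ (y : ZMod t) = 0) := by
    rintro ⟨hA, hB'⟩
    rw [ZMod.intCast_zmod_eq_zero_iff_dvd] at hA hB'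
    have hu := hxy.isUnit_of_dvd' hA hB'
    have h2 := ht.two_le
    have : ((t : ℕ) : ℤ) = 1 ∨ ((t : ℕ) : ℤ) = -1 := Int.isUnit_iff.1 hu
    omega
  have hp0 : p ≠ 0 := hp.pos.ne'
  obtain ⟨aux1, aux2⟩ := haux
  have hab : ¬ ((a1 : ZMod t) = 0 ∧ (b1 : ZMod t) = 0) := by
    rintro ⟨h1, h2⟩
    rw [h1, zero_pow hs0] at fα
    rw [h2, zero_pow hs0] at fβ
    apply hxy'
    constructor
    · rw [fα, fβ, zero_pow hp0] at fm'
      exact eq_zero_of_pow_eq_zero (n := s) (by rw [fm']; ring)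
    · rw [fα, fβ, zero_pow hp0] at fn'
      exact eq_zero_of_pow_eq_zero (n := s) (by rw [fn']; ring)
  by_cases hb0 : (b1 : ZMod t) = 0
  · have ha0 : (a1 : ZMod t) ≠ 0 := fun h => hab ⟨h, hb0⟩
    rw [hb0, zero_pow hs0] at fβ
    rw [fβ, zero_mul, add_zero, fα] at fN
    apply aux1 ((b2 : ZMod t) / (a1 : ZMod t) ^ (p - 1))
    rw [div_pow, fN, ← pow_mul, ← pow_mul, mul_comm s (p - 1), mul_div_cancel_right₀]
    exact pow_ne_zero _ ha0
  · by_cases ha0 : (a1 : ZMod t) = 0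
    · rw [ha0, zero_pow hs0] at fα
      rw [fα, zero_mul, add_zero, fβ] at fM
      have fε : (ε : ZMod t) * ε ^ s = 1 := by
        rcases hε with h1 | h1
        · rw [h1]; simp
        · rw [h1]; push_cast; rw [hs.neg_one_pow]; ring
      apply aux1 (ε * (a2 : ZMod t) / (b1 : ZMod t) ^ (p - 1))
      rw [div_pow, mul_pow, fM, div_eq_iff (pow_ne_zero _ (pow_ne_zero _ hb0))]
      have h3 : ((b1 : ZMod t) ^ s) ^ (p - 1) = ((b1 : ZMod t) ^ (p - 1)) ^ s := by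
        rw [← pow_mul, ← pow_mul, mul_comm]
      rw [h3]
      linear_combination ((p : ZMod t) * ((b1 : ZMod t) ^ (p - 1)) ^ s) * fε
    · apply aux2 (a1 : ZMod t) (b1 : ZMod t) (x : ZMod t) (y : ZMod t) ha0 hb0
      have h1 := gauss_cast_pow t (⟨α, β⟩ : GaussianInt) p
      rw [← hαβ] at h1
      simp only at h1
      push_cast at h1
      rw [fα, fβ] at h1
      exact h1

/-! ### Boolean checks -/

def cmul (t : ℕ) (z w : ℕ × ℕ) : ℕ × ℕ :=
  ((z.1 * w.1 + (t - 1) * (z.2 * w.2)) % t, (z.1 * w.2 + z.2 * w.1) % t)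

def cpow (t : ℕ) : ℕ → ℕ × ℕ → ℕ → ℕ × ℕ
  | 0, _, _ => (1, 0)
  | f + 1, z, n => if n % 2 = 1 then cmul t z (cpow t f (cmul t z z) (n / 2)) else
      cpow t f (cmul t z z) (n / 2)

def toQ (t : ℕ) (z : ℕ × ℕ) : QuadraticAlgebra (ZMod t) (-1) 0 := ⟨(z.1 : ZMod t), (z.2 : ZMod t)⟩

lemma toQ_mul {t : ℕ} (ht : 1 ≤ t) (z w : ℕ × ℕ) : toQ t (cmul t z w) = toQ t z * toQ t w := by
  have ht1 : ((t - 1 : ℕ) : ZMod t) = -1 := by
    rw [Nat.cast_sub ht, ZMod.natCast_self]; simp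
  unfold toQ cmul
  rw [QuadraticAlgebra.mk_mul_mk]
  ext
  · simp only
    rw [ZMod.natCast_mod]; push_cast [ht1]; ring
  · simp only
    rw [ZMod.natCast_mod]; push_cast; ring

lemma toQ_pow {t : ℕ} (ht : 1 ≤ t) (f : ℕ) : ∀ (z : ℕ × ℕ) (n : ℕ), n < 2 ^ f →
    toQ t (cpow t f z n) = toQ t z ^ n := by
  induction f with
  | zero =>
    intro z n hn
    have : n = 0 := by simpa using hn
    subst this
    unfold cpow toQ
    ext <;> simp [QuadraticAlgebra.re_one, QuadraticAlgebra.im_one]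
  | succ f ih =>
    intro z n hn
    have h2 : n / 2 < 2 ^ f := by
      rw [pow_succ] at hn; omega
    have h3 := ih (cmul t z z) (n / 2) h2
    have h4 : (toQ t z * toQ t z) ^ (n / 2) = toQ t z ^ (2 * (n / 2)) := by
      rw [pow_mul, sq]
    unfold cpow
    by_cases h5 : n % 2 = 1
    · rw [if_pos h5, toQ_mul ht, h3, toQ_mul ht, h4, ← pow_succ']
      congr 1; omega
    · rw [if_neg h5, h3, toQ_mul ht, h4]
      congr 1; omega

/-- check for `AuxG` -/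
def chkG (r t : ℕ) (P : List ℕ) : Bool :=
  decide (r < 256) && decide (1 ≤ r) && decide (r % t ≠ 0) && (!(memb (r % t) P)) &&
    P.all (fun a => !(memb (cpow t 8 ((2 * a) % t, 1) r).1 ((0 :: P).map fun A => (2 ^ r * A) % t) &&
      memb (cpow t 8 ((2 * a) % t, 1) r).2 ((0 :: P).map fun B => (2 ^ (r - 1) * B) % t)))

/-- check for `AuxU` -/
def chkU (p t : ℕ) (P : List ℕ) : Bool :=
  decide (p < 256) && decide (1 ≤ p) && decide (p % t ≠ 0) && (!(memb (p % t) P)) &&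
    P.all (fun a => !(memb (cpow t 8 (a, 1) p).1 (0 :: P) && memb (cpow t 8 (a, 1) p).2 (0 :: P)))

lemma cpow_lt {t : ℕ} (ht : 1 < t) (f : ℕ) (z : ℕ × ℕ) (n : ℕ) :
    (cpow t f z n).1 < t ∧ (cpow t f z n).2 < t := by
  induction f generalizing z n with
  | zero => unfold cpow; exact ⟨ht, by omega⟩
  | succ f ih =>
    unfold cpow
    by_cases h5 : n % 2 = 1
    · rw [if_pos h5]
      unfold cmul
      exact ⟨Nat.mod_lt _ (by omega), Nat.mod_lt _ (by omega)⟩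
    · rw [if_neg h5]
      exact ih _ _

lemma not_pow_of_chk {p r t : ℕ} (hp : p ≠ 0) [Fact t.Prime] {P : List ℕ}
    (h1 : chkPows p t P = true) (h3 : r % t ≠ 0) (h4 : memb (r % t) P = false) :
    ∀ a : ZMod t, a ^ p ≠ (r : ZMod t) := by
  intro a ha
  obtain ⟨n, hn, hnt, hn2⟩ := pows_sound' hp h1 a
  rw [hn2] at ha
  have h6 : n = r % t := by
    have := (ZMod.natCast_eq_natCast_iff' n r t).1 ha
    rw [← this, Nat.mod_eq_of_lt hnt]
  rcases List.mem_cons.1 hn with h7 | h7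
  · exact h3 (by rw [← h6, h7])
  · exact not_mem_of_contains h4 (h6 ▸ h7)

lemma chkG_sound {p r t : ℕ} (hp : p ≠ 0) (ht : t.Prime) (P : List ℕ)
    (h1 : chkPows p t P = true) (h2 : chkG r t P = true) : AuxG p r t := by
  have : Fact t.Prime := ⟨ht⟩
  unfold chkG at h2
  simp only [Bool.and_eq_true, decide_eq_true_eq, List.all_eq_true, Bool.not_eq_true'] at h2
  obtain ⟨⟨⟨⟨h8, h9⟩, h3⟩, h4⟩, h5⟩ := h2
  refine ⟨not_pow_of_chk hp h1 h3 h4, ?_⟩
  intro a b A B ha hb heq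
  obtain ⟨na, hna, hnat, hna2⟩ := pows_sound h1 (a / b) (div_ne_zero ha hb)
  obtain ⟨nA, hnA, hnAt, hnA2⟩ := pows_sound' hp h1 (A / b ^ r)
  obtain ⟨nB, hnB, hnBt, hnB2⟩ := pows_sound' hp h1 (B / b ^ r)
  have hbp : b ^ p ≠ 0 := pow_ne_zero _ hb
  have hbpr : (b ^ p) ^ r ≠ 0 := pow_ne_zero _ hbp
  have hbr : (b ^ r) ^ p = (b ^ p) ^ r := by rw [← pow_mul, ← pow_mul, mul_comm]
  have e1 : a ^ p = na * b ^ p := by rw [← hna2, div_pow, div_mul_cancel₀ _ hbp]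
  have e2 : A ^ p = nA * (b ^ p) ^ r := by rw [← hnA2, div_pow, hbr, div_mul_cancel₀ _ hbpr]
  have e3 : B ^ p = nB * (b ^ p) ^ r := by rw [← hnB2, div_pow, hbr, div_mul_cancel₀ _ hbpr]
  have hfac : (⟨2 * a ^ p, b ^ p⟩ : QuadraticAlgebra (ZMod t) (-1) 0) =
      ⟨b ^ p, 0⟩ * toQ t ((2 * na) % t, 1) := by
    unfold toQ
    rw [QuadraticAlgebra.mk_mul_mk]
    ext
    · simp only
      rw [ZMod.natCast_mod, e1]; push_cast; ring
    · simp
  have hC : ∀ (c : ZMod t) (n : ℕ), (⟨c, 0⟩ : QuadraticAlgebra (ZMod t) (-1) 0) ^ n = ⟨c ^ n, 0⟩ := by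
    intro c n
    induction n with
    | zero => ext <;> simp [QuadraticAlgebra.re_one, QuadraticAlgebra.im_one]
    | succ n ih =>
      rw [pow_succ, ih, QuadraticAlgebra.mk_mul_mk, pow_succ]
      ext <;> simp
  rw [hfac, mul_pow, hC, ← toQ_pow ht.one_le 8 _ r (by simpa using h8)] at heq
  set w := cpow t 8 ((2 * na) % t, 1) r with hw
  obtain ⟨hw1, hw2⟩ : w.1 < t ∧ w.2 < t := cpow_lt ht.one_lt 8 _ r
  unfold toQ at heq
  rw [QuadraticAlgebra.mk_mul_mk] at heq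
  have q1 := congrArg QuadraticAlgebra.re heq
  have q2 := congrArg QuadraticAlgebra.im heq
  simp only at q1 q2
  have r1 : ((w.1 : ℕ) : ZMod t) = ((2 ^ r * nA : ℕ) : ZMod t) := by
    apply mul_left_cancel₀ hbpr
    push_cast
    rw [e2] at q1
    linear_combination q1
  have r2 : ((w.2 : ℕ) : ZMod t) = ((2 ^ (r - 1) * nB : ℕ) : ZMod t) := by
    apply mul_left_cancel₀ hbpr
    push_cast
    rw [e3] at q2
    linear_combination q2
  rw [ZMod.natCast_eq_natCast_iff'] at r1 r2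
  rw [Nat.mod_eq_of_lt hw1] at r1
  rw [Nat.mod_eq_of_lt hw2] at r2
  have h6 := h5 na hna
  rw [← hw, Bool.and_eq_false_iff] at h6
  rcases h6 with h6 | h6
  · apply not_mem_of_contains h6
    rw [List.mem_map]
    exact ⟨nA, hnA, r1.symm⟩
  · apply not_mem_of_contains h6
    rw [List.mem_map]
    exact ⟨nB, hnB, r2.symm⟩

lemma chkU_sound {s p t : ℕ} (hs : s ≠ 0) (ht : t.Prime) (P : List ℕ)
    (h1 : chkPows s t P = true) (h2 : chkU p t P = true) : AuxU s p t := by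
  have : Fact t.Prime := ⟨ht⟩
  unfold chkU at h2
  simp only [Bool.and_eq_true, decide_eq_true_eq, List.all_eq_true, Bool.not_eq_true'] at h2
  obtain ⟨⟨⟨⟨h8, h9⟩, h3⟩, h4⟩, h5⟩ := h2
  refine ⟨not_pow_of_chk hs h1 h3 h4, ?_⟩
  intro a b A B ha hb heq
  obtain ⟨na, hna, hnat, hna2⟩ := pows_sound h1 (a / b) (div_ne_zero ha hb)
  obtain ⟨nA, hnA, hnAt, hnA2⟩ := pows_sound' hs h1 (A / b ^ p)
  obtain ⟨nB, hnB, hnBt, hnB2⟩ := pows_sound' hs h1 (B / b ^ p)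
  have hbp : b ^ s ≠ 0 := pow_ne_zero _ hb
  have hbpr : (b ^ s) ^ p ≠ 0 := pow_ne_zero _ hbp
  have hbr : (b ^ p) ^ s = (b ^ s) ^ p := by rw [← pow_mul, ← pow_mul, mul_comm]
  have e1 : a ^ s = na * b ^ s := by rw [← hna2, div_pow, div_mul_cancel₀ _ hbp]
  have e2 : A ^ s = nA * (b ^ s) ^ p := by rw [← hnA2, div_pow, hbr, div_mul_cancel₀ _ hbpr]
  have e3 : B ^ s = nB * (b ^ s) ^ p := by rw [← hnB2, div_pow, hbr, div_mul_cancel₀ _ hbpr]
  have hfac : (⟨a ^ s, b ^ s⟩ : QuadraticAlgebra (ZMod t) (-1) 0) =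
      ⟨b ^ s, 0⟩ * toQ t (na, 1) := by
    unfold toQ
    rw [QuadraticAlgebra.mk_mul_mk]
    ext
    · simp only
      rw [e1]; push_cast; ring
    · simp
  have hC : ∀ (c : ZMod t) (n : ℕ), (⟨c, 0⟩ : QuadraticAlgebra (ZMod t) (-1) 0) ^ n = ⟨c ^ n, 0⟩ := by
    intro c n
    induction n with
    | zero => ext <;> simp [QuadraticAlgebra.re_one, QuadraticAlgebra.im_one]
    | succ n ih =>
      rw [pow_succ, ih, QuadraticAlgebra.mk_mul_mk, pow_succ]
      ext <;> simp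
  rw [hfac, mul_pow, hC, ← toQ_pow ht.one_le 8 _ p (by simpa using h8)] at heq
  set w := cpow t 8 (na, 1) p with hw
  obtain ⟨hw1, hw2⟩ : w.1 < t ∧ w.2 < t := cpow_lt ht.one_lt 8 _ p
  unfold toQ at heq
  rw [QuadraticAlgebra.mk_mul_mk] at heq
  have q1 := congrArg QuadraticAlgebra.re heq
  have q2 := congrArg QuadraticAlgebra.im heq
  simp only at q1 q2
  have r1 : ((w.1 : ℕ) : ZMod t) = ((nA : ℕ) : ZMod t) := by
    apply mul_left_cancel₀ hbpr
    rw [e2] at q1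
    linear_combination q1
  have r2 : ((w.2 : ℕ) : ZMod t) = ((nB : ℕ) : ZMod t) := by
    apply mul_left_cancel₀ hbpr
    rw [e3] at q2
    linear_combination q2
  rw [ZMod.natCast_eq_natCast_iff'] at r1 r2
  rw [Nat.mod_eq_of_lt hw1, Nat.mod_eq_of_lt hnAt] at r1
  rw [Nat.mod_eq_of_lt hw2, Nat.mod_eq_of_lt hnBt] at r2
  have h6 := h5 na hna
  rw [← hw, Bool.and_eq_false_iff] at h6
  rcases h6 with h6 | h6
  · apply not_mem_of_contains h6
    rw [r1]; exact hnA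
  · apply not_mem_of_contains h6
    rw [r2]; exact hnB

/-! ### Sophie Germain primes -/

lemma norm_pow_eq {t : ℕ} (u v U V : ZMod t) (n : ℕ)
    (h : (⟨u, v⟩ : QuadraticAlgebra (ZMod t) (-1) 0) ^ n = ⟨U, V⟩) :
    (u ^ 2 + v ^ 2) ^ n = U ^ 2 + V ^ 2 := by
  induction n generalizing U V with
  | zero =>
    rw [pow_zero] at h
    have h1 := congrArg QuadraticAlgebra.re h
    have h2 := congrArg QuadraticAlgebra.im h
    simp only [QuadraticAlgebra.re_one, QuadraticAlgebra.im_one] at h1 h2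
    rw [← h1, ← h2]; ring
  | succ n ih =>
    rw [pow_succ] at h
    set w := (⟨u, v⟩ : QuadraticAlgebra (ZMod t) (-1) 0) ^ n with hw
    have hw2 : w = ⟨w.re, w.im⟩ := by ext <;> rfl
    have h3 := ih w.re w.im hw2
    rw [hw2, QuadraticAlgebra.mk_mul_mk] at h
    have h1 := congrArg QuadraticAlgebra.re h
    have h2 := congrArg QuadraticAlgebra.im h
    simp only at h1 h2
    rw [pow_succ, h3, ← h1, ← h2]; ring

/-- For a Sophie Germain prime `p ≥ 5`, `2 p + 1` is auxiliary of the second type for `(p, r)`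
unless `r` is `0, 1` modulo `p`, or `0, ±1` modulo `2 p + 1`, or `5 ^ r = 4 ^ (r - 1)` modulo
`2 p + 1`. -/
theorem auxG_sg (p r : ℕ) (hp : p.Prime) (hp5 : 5 ≤ p) (ht : (2 * p + 1).Prime) (hr : Odd r)
    (h0 : (r : ZMod p) ≠ 0) (h1 : (r : ZMod p) ≠ 1)
    (k0 : (r : ZMod (2 * p + 1)) ≠ 0) (k1 : (r : ZMod (2 * p + 1)) ≠ 1)
    (k2 : (r : ZMod (2 * p + 1)) ≠ -1)
    (k3 : (5 : ZMod (2 * p + 1)) ^ r ≠ 4 ^ (r - 1)) : AuxG p r (2 * p + 1) := by
  have : Fact (2 * p + 1).Prime := ⟨ht⟩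
  have hr1 : 1 ≤ r := hr.pos
  have hr2 : r - 1 + 1 = r := by omega
  have hp0 : p ≠ 0 := hp.ne_zero
  have d0 : ¬ p ∣ r := not_dvd_of_cast h0
  have d1 : ¬ p ∣ r - 1 := not_dvd_sub_of_cast hr1 h1
  have ht11 : 11 ≤ 2 * p + 1 := by omega
  have two_ne : (2 : ZMod (2 * p + 1)) ≠ 0 := by
    exact_mod_cast small_ne ht11 2 (by norm_num) (by norm_num)
  have three_ne : (3 : ZMod (2 * p + 1)) ≠ 0 := by
    exact_mod_cast small_ne ht11 3 (by norm_num) (by norm_num)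
  have four_ne : (4 : ZMod (2 * p + 1)) ≠ 0 := by
    exact_mod_cast small_ne ht11 4 (by norm_num) (by norm_num)
  have five_ne : (5 : ZMod (2 * p + 1)) ≠ 0 := by
    exact_mod_cast small_ne ht11 5 (by norm_num) (by norm_num)
  have keyA : ((5 : ZMod (2 * p + 1)) / 4) ^ 2 ≠ 1 := by
    rw [div_pow, Ne, div_eq_one_iff_eq (pow_ne_zero _ four_ne)]
    intro h
    have h9 : (3 : ZMod (2 * p + 1)) ^ 2 = 0 := by linear_combination h
    exact three_ne (eq_zero_of_pow_eq_zero h9)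
  have keyq : ∀ n : ℕ, ¬ p ∣ n → (5 : ZMod (2 * p + 1)) ^ n ≠ 4 ^ n := by
    intro n hn h
    apply hn
    apply dvd_of_pow_eq_one rfl hp (5 / 4) (div_ne_zero five_ne four_ne) keyA n
    rw [mul_comm 2 n, pow_mul, div_pow, h, div_self (pow_ne_zero _ four_ne), one_pow]
  refine ⟨?_, ?_⟩
  · intro a ha
    rcases pow_p_cases rfl hp0 a with ⟨_, h⟩ | h | h
    · exact k0 (ha.symm.trans h)
    · exact k1 (ha.symm.trans h)
    · exact k2 (ha.symm.trans h)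
  · intro a b A B ha hb heq
    have hn := norm_pow_eq _ _ _ _ _ heq
    have e1 : (a ^ p) ^ 2 = 1 := sqp rfl a ha
    have e2 : (b ^ p) ^ 2 = 1 := sqp rfl b hb
    have hl : (2 * a ^ p) ^ 2 + (b ^ p) ^ 2 = 5 := by linear_combination 4 * e1 + e2
    rw [hl] at hn
    have h4r : ((2 : ZMod (2 * p + 1)) ^ r) ^ 2 = 4 ^ r := by
      rw [← pow_mul, mul_comm r 2, pow_mul]; norm_num
    have h4r1 : ((2 : ZMod (2 * p + 1)) ^ (r - 1)) ^ 2 = 4 ^ (r - 1) := by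
      rw [← pow_mul, mul_comm (r - 1) 2, pow_mul]; norm_num
    rw [mul_pow, mul_pow, h4r, h4r1] at hn
    have h5r : (5 : ZMod (2 * p + 1)) ^ r = 5 ^ (r - 1) * 5 := by rw [← pow_succ, hr2]
    have h4r2 : (4 : ZMod (2 * p + 1)) ^ r = 4 ^ (r - 1) * 4 := by rw [← pow_succ, hr2]
    by_cases hA : A = 0 <;> by_cases hB : B = 0
    · rw [hA, hB, zero_pow hp0] at hn
      have : (5 : ZMod (2 * p + 1)) ^ r = 0 := by rw [hn]; ring
      exact five_ne (eq_zero_of_pow_eq_zero this)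
    · have e4 : (B ^ p) ^ 2 = 1 := sqp rfl B hB
      rw [hA, zero_pow hp0, e4] at hn
      apply k3
      rw [hn]; ring
    · have e3 : (A ^ p) ^ 2 = 1 := sqp rfl A hA
      rw [hB, zero_pow hp0, e3] at hn
      apply keyq r d0
      rw [hn]; ring
    · have e3 : (A ^ p) ^ 2 = 1 := sqp rfl A hA
      have e4 : (B ^ p) ^ 2 = 1 := sqp rfl B hB
      rw [e3, e4] at hn
      apply keyq (r - 1) d1
      apply mul_right_cancel₀ five_ne
      rw [← h5r, hn, h4r2]; ring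

/-- For a Sophie Germain prime `s ≥ 5`, `2 s + 1` is auxiliary of the third type for `(s, p)`
unless `p` is `0, 1` modulo `s`, or `0, ±1` modulo `2 s + 1`. -/
theorem auxU_sg (s p : ℕ) (hs : s.Prime) (hs5 : 5 ≤ s) (ht : (2 * s + 1).Prime) (hp : Odd p)
    (h0 : (p : ZMod s) ≠ 0) (h1 : (p : ZMod s) ≠ 1)
    (k0 : (p : ZMod (2 * s + 1)) ≠ 0) (k1 : (p : ZMod (2 * s + 1)) ≠ 1)
    (k2 : (p : ZMod (2 * s + 1)) ≠ -1) : AuxU s p (2 * s + 1) := by
  have : Fact (2 * s + 1).Prime := ⟨ht⟩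
  have hr1 : 1 ≤ p := hp.pos
  have hr2 : p - 1 + 1 = p := by omega
  have hp0 : s ≠ 0 := hs.ne_zero
  have d0 : ¬ s ∣ p := not_dvd_of_cast h0
  have d1 : ¬ s ∣ p - 1 := not_dvd_sub_of_cast hr1 h1
  have ht11 : 11 ≤ 2 * s + 1 := by omega
  have two_ne : (2 : ZMod (2 * s + 1)) ≠ 0 := by
    exact_mod_cast small_ne ht11 2 (by norm_num) (by norm_num)
  have three_ne : (3 : ZMod (2 * s + 1)) ≠ 0 := by
    exact_mod_cast small_ne ht11 3 (by norm_num) (by norm_num)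
  have keyA : (2 : ZMod (2 * s + 1)) ^ 2 ≠ 1 := by
    intro h
    apply three_ne
    linear_combination h
  have keyq : ∀ n : ℕ, ¬ s ∣ n → (2 : ZMod (2 * s + 1)) ^ n ≠ 1 := by
    intro n hn h
    apply hn
    apply dvd_of_pow_eq_one rfl hs 2 two_ne keyA n
    rw [mul_comm 2 n, pow_mul, h, one_pow]
  refine ⟨?_, ?_⟩
  · intro a ha
    rcases pow_p_cases rfl hp0 a with ⟨_, h⟩ | h | h
    · exact k0 (ha.symm.trans h)
    · exact k1 (ha.symm.trans h)
    · exact k2 (ha.symm.trans h)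
  · intro a b A B ha hb heq
    have hn := norm_pow_eq _ _ _ _ _ heq
    have e1 : (a ^ s) ^ 2 = 1 := sqp rfl a ha
    have e2 : (b ^ s) ^ 2 = 1 := sqp rfl b hb
    have hl : (a ^ s) ^ 2 + (b ^ s) ^ 2 = 2 := by linear_combination e1 + e2
    rw [hl] at hn
    have h2r : (2 : ZMod (2 * s + 1)) ^ p = 2 ^ (p - 1) * 2 := by rw [← pow_succ, hr2]
    by_cases hA : A = 0 <;> by_cases hB : B = 0
    · rw [hA, hB, zero_pow hp0] at hn
      have : (2 : ZMod (2 * s + 1)) ^ p = 0 := by rw [hn]; ring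
      exact two_ne (eq_zero_of_pow_eq_zero this)
    · have e4 : (B ^ s) ^ 2 = 1 := sqp rfl B hB
      rw [hA, zero_pow hp0, e4] at hn
      apply keyq p d0
      rw [hn]; ring
    · have e3 : (A ^ s) ^ 2 = 1 := sqp rfl A hA
      rw [hB, zero_pow hp0, e3] at hn
      apply keyq p d0
      rw [hn]; ring
    · have e3 : (A ^ s) ^ 2 = 1 := sqp rfl A hA
      have e4 : (B ^ s) ^ 2 = 1 := sqp rfl B hB
      rw [e3, e4] at hn
      apply keyq (p - 1) d1
      apply mul_right_cancel₀ two_ne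
      rw [← h2r, hn]; ring

end Pool.Agent.H326R2
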